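import Mathlib

/-!
Convex functions have bounded second differences at almost every point in every direction.
-/

open MeasureTheory Filter Set
open scoped Topology

namespace Pool.Agent.K1H38.DP

/-- bounded second differences of `f` at `x` in the direction `u` -/
def SD {E : Type*} [AddCommGroup E] [Module ℝ E] (f : E → ℝ) (u x : E) : Prop :=
  ∃ C r : ℝ, 0 < r ∧ ∀ t : ℝ, 0 < t → t ≤ r → f (x + t • u) + f (x - t • u) - 2 * f x ≤ C * t ^ 2

/-- the right derivative is a subgradient -/
lemma subgrad {g : ℝ → ℝ} (hg : ConvexOn ℝ univ g) (x y : ℝ) :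
    g x + derivWithin g (Ioi x) x * (y - x) ≤ g y := by
  have hx : x ∈ interior (univ : Set ℝ) := by simp
  rcases lt_trichotomy x y with h | h | h
  · have h1 := hg.rightDeriv_le_slope_of_mem_interior hx (mem_univ y) h
    rw [slope_def_field, le_div_iff₀ (sub_pos.2 h)] at h1
    linarith
  · subst h; simp
  · have h1 := hg.slope_le_leftDeriv_of_mem_interior (mem_univ y) hx h
    have h2 := hg.leftDeriv_le_rightDeriv_of_mem_interior hx
    have h3 := h1.trans h2
    rw [slope_def_field, div_le_iff₀ (sub_pos.2 h)] at h3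
    linarith

lemma ae_sd_real {g : ℝ → ℝ} (hg : ConvexOn ℝ univ g) : ∀ᵐ x : ℝ, SD g 1 x := by
  have hm : Monotone (fun x => derivWithin g (Ioi x) x) := by
    have := hg.monotoneOn_rightDeriv
    rw [interior_univ] at this
    exact monotoneOn_univ.1 this
  filter_upwards [hm.ae_differentiableAt] with x hx
  obtain ⟨C, hC⟩ := hx.isBigO_sub.bound
  rw [Metric.eventually_nhds_iff] at hC
  obtain ⟨r, hr, hC⟩ := hC
  refine ⟨2 * C, r / 2, by positivity, fun t ht htr => ?_⟩
  have h1 : |derivWithin g (Ioi (x + t)) (x + t) - derivWithin g (Ioi x) x| ≤ C * t := by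
    have := hC (y := x + t) (by rw [Real.dist_eq]; simp only [add_sub_cancel_left]; rw [abs_of_pos ht]; linarith)
    simpa [abs_of_pos ht] using this
  have h2 : |derivWithin g (Ioi (x - t)) (x - t) - derivWithin g (Ioi x) x| ≤ C * t := by
    have := hC (y := x - t) (by
      rw [Real.dist_eq]; rw [show x - t - x = -t by ring, abs_neg, abs_of_pos ht]; linarith)
    rw [show x - t - x = -t by ring, norm_neg, Real.norm_eq_abs, Real.norm_eq_abs, abs_of_pos ht] at this
    exact this
  have h3 := subgrad hg (x + t) x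
  have h4 := subgrad hg (x - t) x
  have h5 := (abs_le.1 h1).2
  have h6 := (abs_le.1 h2).1
  simp only [smul_eq_mul, mul_one]
  nlinarith

lemma convexOn_line {E : Type*} [AddCommGroup E] [Module ℝ E] {f : E → ℝ} (hf : ConvexOn ℝ univ f)
    (p u : E) : ConvexOn ℝ univ (fun t : ℝ => f (p + t • u)) := by
  refine ⟨convex_univ, fun s _ t _ a b ha hb hab => ?_⟩
  have h := hf.2 (mem_univ (p + s • u)) (mem_univ (p + t • u)) ha hb hab
  have e : p + (a • s + b • t) • u = a • (p + s • u) + b • (p + t • u) := by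
    rw [smul_add, smul_add, add_smul, smul_smul, smul_smul, smul_eq_mul, smul_eq_mul]
    rw [show a • p + (a * s) • u + (b • p + (b * t) • u) = (a + b) • p + ((a * s) • u + (b * t) • u) by
      rw [add_smul]; abel]
    rw [hab, one_smul]
  simp only
  rw [e]
  exact h

lemma sd_line {E : Type*} [AddCommGroup E] [Module ℝ E] (f : E → ℝ) (p u : E) (s : ℝ) :
    SD f u (p + s • u) ↔ SD (fun t : ℝ => f (p + t • u)) 1 s := by
  unfold SD
  have e1 : ∀ t : ℝ, p + s • u + t • u = p + (s + t • (1 : ℝ)) • u := fun t => by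
    rw [smul_eq_mul, mul_one, add_smul]; abel
  have e2 : ∀ t : ℝ, p + s • u - t • u = p + (s - t • (1 : ℝ)) • u := fun t => by
    rw [smul_eq_mul, mul_one, sub_smul]; abel
  simp_rw [e1, e2]

lemma measurableSet_sd {E : Type*} [NormedAddCommGroup E] [NormedSpace ℝ E] [MeasurableSpace E]
    [BorelSpace E] {f : E → ℝ} (hf : Continuous f) (u : E) : MeasurableSet {x | SD f u x} := by
  have e : {x | SD f u x} = ⋃ C : ℕ, ⋃ k : ℕ, ⋂ t : ℝ, ⋂ (_ : 0 < t), ⋂ (_ : t ≤ 1 / ((k : ℝ) + 1)),
      {x | f (x + t • u) + f (x - t • u) - 2 * f x ≤ C * t ^ 2} := by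
    ext x
    simp only [mem_ofPred_eq, mem_iUnion, mem_iInter, SD]
    constructor
    · rintro ⟨C, r, hr, h⟩
      obtain ⟨C', hC'⟩ := exists_nat_ge C
      obtain ⟨k, hk⟩ := exists_nat_one_div_lt hr
      refine ⟨C', k, fun t ht htk => (h t ht (htk.trans hk.le)).trans ?_⟩
      exact mul_le_mul_of_nonneg_right hC' (sq_nonneg _)
    · rintro ⟨C, k, h⟩
      exact ⟨C, 1 / ((k : ℝ) + 1), by positivity, fun t ht htk => h t ht htk⟩
  rw [e]
  refine MeasurableSet.iUnion fun C => MeasurableSet.iUnion fun k => ?_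
  apply IsClosed.measurableSet
  refine isClosed_iInter fun t => isClosed_iInter fun _ => isClosed_iInter fun _ => ?_
  exact isClosed_le (by fun_prop) continuous_const

lemma ae_sd {E : Type*} [NormedAddCommGroup E] [NormedSpace ℝ E] [MeasurableSpace E]
    [BorelSpace E] [FiniteDimensional ℝ E] {μ : Measure E} [μ.IsAddHaarMeasure]
    {f : E → ℝ} (hf : Continuous f) (hc : ConvexOn ℝ univ f) (u : E) : ∀ᵐ x ∂μ, SD f u x := by
  let L : ℝ →L[ℝ] E := ContinuousLinearMap.smulRight (1 : ℝ →L[ℝ] ℝ) u
  refine ae_mem_of_ae_add_linearMap_mem L.toLinearMap volume μ (measurableSet_sd hf u) ?_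
  intro p
  filter_upwards [ae_sd_real (convexOn_line hc p u)] with s hs
  have h1 := (sd_line f p u s).2 hs
  have e : L.toLinearMap s = s • u := by simp [L]
  show SD f u (p + L.toLinearMap s)
  rw [e]
  exact h1

/-- at points with bounded second differences a convex function is bounded from above by a parabola -/
lemma sd_slope {E : Type*} [AddCommGroup E] [Module ℝ E] {f : E → ℝ} (hf : ConvexOn ℝ univ f)
    {u x : E} (h : SD f u x) :
    ∃ v C r : ℝ, 0 < r ∧ ∀ t : ℝ, |t| ≤ r → f (x + t • u) ≤ f x + t * v + C * t ^ 2 := by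
  obtain ⟨C, r, hr, h⟩ := h
  have hc := convexOn_line hf x u
  set g : ℝ → ℝ := fun t => f (x + t • u) with hg
  refine ⟨derivWithin g (Ioi 0) 0, C, r, hr, fun t ht => ?_⟩
  have hs := subgrad hc 0
  have g0 : g 0 = f x := by simp [hg]
  rcases lt_trichotomy t 0 with h1 | h1 | h1
  · have h2 := h (-t) (by linarith) (by rw [abs_of_neg h1] at ht; exact ht)
    have h3 := hs (-t)
    have e1 : f (x + -t • u) = g (-t) := by simp [hg]
    have e2 : f (x - -t • u) = g t := by simp [hg, sub_eq_add_neg]
    rw [e1, e2] at h2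
    rw [g0] at h3
    show g t ≤ _
    nlinarith
  · subst h1; simp
  · have h2 := h t h1 (by rw [abs_of_pos h1] at ht; exact ht)
    have h3 := hs (-t)
    have e1 : f (x + t • u) = g t := rfl
    have e2 : f (x - t • u) = g (-t) := by simp [hg, sub_eq_add_neg]
    rw [e1, e2] at h2
    rw [g0] at h3
    show g t ≤ _
    nlinarith

end Pool.Agent.K1H38.DP
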