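import Mathlib

/-!
Approximately additive sequences are close to linear ones.
-/

open Filter
open scoped Topology

namespace Pool.Agent.K1H38.DP

lemma dyadic {c K : ℝ} (hc1 : c < 1) (hK : 0 ≤ K) {k₀ : ℕ} {D : ℕ → ℝ} {δ : ℝ}
    (h : ∀ k, k₀ ≤ k → |D (2 ^ (k + 1)) - D (2 ^ k) - D (2 ^ k)| ≤ K * ((2 ^ (k + 1) : ℕ) : ℝ) ^ c)
    (hδ : Tendsto (fun k : ℕ => D (2 ^ k) / 2 ^ k) atTop (𝓝 δ)) {k : ℕ} (hk : k₀ ≤ k) :
    |D (2 ^ k) - 2 ^ k * δ| ≤ K * (2 : ℝ) ^ (c - 1) / (1 - (2 : ℝ) ^ (c - 1)) * ((2 ^ k : ℕ) : ℝ) ^ c := by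
  set q : ℝ := (2 : ℝ) ^ (c - 1) with hq
  have hq0 : 0 < q := by rw [hq]; positivity
  have hq1 : q < 1 := by
    rw [hq]
    exact Real.rpow_lt_one_of_one_lt_of_neg (by norm_num) (by linarith)
  have h1q : 0 < 1 - q := by linarith
  have hqp : ∀ j : ℕ, ((2 ^ j : ℕ) : ℝ) ^ c = 2 ^ j * q ^ j := by
    intro j
    rw [hq]
    push_cast
    rw [← Real.rpow_natCast 2 j, ← Real.rpow_mul (by norm_num), ← Real.rpow_natCast (2 ^ (c - 1)) j,
      ← Real.rpow_mul (by norm_num), ← Real.rpow_add (by norm_num)]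
    congr 1; ring
  have step : ∀ j, k ≤ j → |D (2 ^ j) / 2 ^ j - D (2 ^ k) / 2 ^ k| ≤ K * (q ^ (k + 1) - q ^ (j + 1)) / (1 - q) := by
    intro j hj
    induction j, hj using Nat.le_induction with
    | base => simp
    | succ j hj ih =>
      have h1 := h j (hk.trans hj)
      rw [hqp] at h1
      have h2 : |D (2 ^ (j + 1)) / 2 ^ (j + 1) - D (2 ^ j) / 2 ^ j| ≤ K * q ^ (j + 1) := by
        have e : D (2 ^ (j + 1)) / 2 ^ (j + 1) - D (2 ^ j) / 2 ^ j =
            (D (2 ^ (j + 1)) - D (2 ^ j) - D (2 ^ j)) / 2 ^ (j + 1) := by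
          rw [pow_succ (2 : ℝ)]; field_simp; ring
        rw [e, abs_div, abs_of_pos (by positivity : (0 : ℝ) < 2 ^ (j + 1)), div_le_iff₀ (by positivity)]
        linarith
      have h3 : D (2 ^ (j + 1)) / 2 ^ (j + 1) - D (2 ^ k) / 2 ^ k =
          (D (2 ^ (j + 1)) / 2 ^ (j + 1) - D (2 ^ j) / 2 ^ j) +
          (D (2 ^ j) / 2 ^ j - D (2 ^ k) / 2 ^ k) := by ring
      rw [h3]
      refine (abs_add_le _ _).trans ((add_le_add h2 ih).trans (le_of_eq ?_))
      field_simp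
      ring
  have hlim : |δ - D (2 ^ k) / 2 ^ k| ≤ K * q ^ (k + 1) / (1 - q) := by
    have ht : Tendsto (fun j : ℕ => |D (2 ^ j) / 2 ^ j - D (2 ^ k) / 2 ^ k|) atTop
        (𝓝 |δ - D (2 ^ k) / 2 ^ k|) := (hδ.sub_const _).abs
    refine le_of_tendsto ht ?_
    filter_upwards [eventually_ge_atTop k] with j hj
    refine (step j hj).trans ?_
    apply div_le_div_of_nonneg_right _ h1q.le
    apply mul_le_mul_of_nonneg_left _ hK
    have : 0 < q ^ (j + 1) := by positivity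
    linarith
  have h2k : (0 : ℝ) < 2 ^ k := by positivity
  have e : D (2 ^ k) - 2 ^ k * δ = -(2 ^ k * (δ - D (2 ^ k) / 2 ^ k)) := by field_simp; ring
  rw [e, abs_neg, abs_mul, abs_of_pos h2k, hqp]
  calc 2 ^ k * |δ - D (2 ^ k) / 2 ^ k| ≤ 2 ^ k * (K * q ^ (k + 1) / (1 - q)) :=
        mul_le_mul_of_nonneg_left hlim h2k.le
    _ = K * q / (1 - q) * (2 ^ k * q ^ k) := by field_simp; ring

theorem seq_add {c K : ℝ} (hc : 0 < c) (hc1 : c < 1) (hK : 0 ≤ K) (N₀ : ℕ) :
    ∃ A : ℝ, 0 ≤ A ∧ ∀ (D : ℕ → ℝ) (δ : ℝ),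
      (∀ m n, N₀ ≤ m + n → |D (m + n) - D m - D n| ≤ K * ((m + n : ℕ) : ℝ) ^ c) →
      (∀ m, |D m| ≤ m) → Tendsto (fun k : ℕ => D (2 ^ k) / 2 ^ k) atTop (𝓝 δ) →
      ∀ m : ℕ, |D m - m * δ| ≤ A * (m : ℝ) ^ c := by
  set q : ℝ := (2 : ℝ) ^ (c - 1) with hq
  have hq0 : 0 < q := by rw [hq]; positivity
  have hq1 : q < 1 := by
    rw [hq]
    exact Real.rpow_lt_one_of_one_lt_of_neg (by norm_num) (by linarith)
  have h1q : 0 < 1 - q := by linarith
  set r : ℝ := (2 : ℝ) ^ (-c) with hr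
  have hr0 : 0 < r := by rw [hr]; positivity
  have hr1 : r < 1 := by
    rw [hr]
    exact Real.rpow_lt_one_of_one_lt_of_neg (by norm_num) (by linarith)
  have h1r : 0 < 1 - r := by linarith
  set A1 : ℝ := K * q / (1 - q) with hA1
  have hA10 : 0 ≤ A1 := by positivity
  set A : ℝ := max (2 * 2 ^ (N₀ + 1)) ((A1 + K) / (1 - r)) with hA
  have hA0 : 0 ≤ A := le_max_of_le_left (by positivity)
  refine ⟨A, hA0, fun D δ hadd hb hδ => ?_⟩
  have hδ1 : |δ| ≤ 1 := by
    refine le_of_tendsto hδ.abs (Eventually.of_forall fun k => ?_)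
    rw [abs_div, abs_of_pos (by positivity : (0 : ℝ) < 2 ^ k), div_le_one (by positivity)]
    have := hb (2 ^ k)
    push_cast at this
    exact this
  have hdy : ∀ k, N₀ ≤ k → |D (2 ^ k) - 2 ^ k * δ| ≤ A1 * ((2 ^ k : ℕ) : ℝ) ^ c := by
    intro k hk
    refine dyadic (k₀ := N₀) hc1 hK (fun j hj => ?_) hδ hk
    have e : 2 ^ (j + 1) = 2 ^ j + 2 ^ j := by ring
    have h1 := hadd (2 ^ j) (2 ^ j) (by
      have : j < 2 ^ j := Nat.lt_two_pow_self
      omega)
    rw [← e] at h1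
    exact h1
  intro m
  induction m using Nat.strong_induction_on with
  | _ m ih =>
    rcases Nat.eq_zero_or_pos m with h0 | hmpos
    · subst h0
      have := hb 0
      simp only [Nat.cast_zero, abs_nonpos_iff] at this
      simp [this, Real.zero_rpow hc.ne']
    have hm1 : (1 : ℝ) ≤ m := by exact_mod_cast hmpos
    have hmc : (1 : ℝ) ≤ (m : ℝ) ^ c := Real.one_le_rpow hm1 hc.le
    rcases Nat.lt_or_ge m (2 ^ (N₀ + 1)) with hlt | hge
    · have h1 : |D m - m * δ| ≤ 2 * m := by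
        refine (abs_sub _ _).trans ?_
        rw [abs_mul, Nat.abs_cast]
        have := hb m
        nlinarith
      have h2 : (m : ℝ) ≤ 2 ^ (N₀ + 1) := by exact_mod_cast hlt.le
      have h3 : (2 : ℝ) * 2 ^ (N₀ + 1) ≤ A := le_max_left _ _
      nlinarith
    · obtain ⟨k, hkdef⟩ : ∃ k, k = Nat.log 2 m := ⟨_, rfl⟩
      have hk1 : 2 ^ k ≤ m := by rw [hkdef]; exact Nat.pow_log_le_self 2 (by omega)
      have hk2 : m < 2 ^ (k + 1) := by rw [hkdef]; exact Nat.lt_pow_succ_log_self (by norm_num) m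
      have hkN : N₀ ≤ k := by
        rw [hkdef]
        have := Nat.log_mono_right (b := 2) hge
        rw [Nat.log_pow (by norm_num)] at this
        omega
      obtain ⟨m', hm'⟩ := Nat.exists_eq_add_of_le hk1
      have hm'lt : m' < m := by
        have : 0 < 2 ^ k := by positivity
        omega
      have hm'2 : 2 * m' ≤ m := by
        rw [pow_succ] at hk2
        omega
      have h1 := ih m' hm'lt
      have h2 := hdy k hkN
      have h3 := hadd (2 ^ k) m' (by
        have : k < 2 ^ k := Nat.lt_two_pow_self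
        omega)
      rw [← hm'] at h3
      have h2m : A1 * ((2 ^ k : ℕ) : ℝ) ^ c ≤ A1 * (m : ℝ) ^ c := by
        apply mul_le_mul_of_nonneg_left _ hA10
        exact Real.rpow_le_rpow (by positivity) (by exact_mod_cast hk1) hc.le
      have h1m : A * (m' : ℝ) ^ c ≤ A * (r * (m : ℝ) ^ c) := by
        apply mul_le_mul_of_nonneg_left _ hA0
        have e : r * (m : ℝ) ^ c = ((m : ℝ) / 2) ^ c := by
          rw [hr, Real.div_rpow (by positivity) (by norm_num), Real.rpow_neg (by norm_num)]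
          field_simp
        rw [e]
        apply Real.rpow_le_rpow (by positivity) _ hc.le
        rw [le_div_iff₀ (by norm_num)]
        have : ((m' * 2 : ℕ) : ℝ) ≤ m := by exact_mod_cast (by omega : m' * 2 ≤ m)
        push_cast at this
        exact this
      have e : D m - m * δ = (D m - D (2 ^ k) - D m') + (D (2 ^ k) - 2 ^ k * δ) + (D m' - m' * δ) := by
        have : (m : ℝ) = 2 ^ k + m' := by
          conv_lhs => rw [hm']
          push_cast; ring
        rw [this]; ring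
      rw [e]
      have hA2 : (A1 + K) / (1 - r) ≤ A := le_max_right _ _
      rw [div_le_iff₀ h1r] at hA2
      calc _ ≤ |D m - D (2 ^ k) - D m'| + |D (2 ^ k) - 2 ^ k * δ| + |D m' - m' * δ| :=
            (abs_add_le _ _).trans (by gcongr; exact abs_add_le _ _)
        _ ≤ K * (m : ℝ) ^ c + A1 * (m : ℝ) ^ c + A * (r * (m : ℝ) ^ c) := by
            gcongr
            · exact h2.trans h2m
            · exact h1.trans h1m
        _ = (K + A1 + A * r) * (m : ℝ) ^ c := by ring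
        _ ≤ A * (m : ℝ) ^ c := by
            apply mul_le_mul_of_nonneg_right _ (by positivity)
            nlinarith

end Pool.Agent.K1H38.DP
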