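import Pool.Agent.K1H38.DP.Tail
import Pool.Agent.K1H38.DP.Seq
import Pool.Agent.K1H38.DP.Conv

/-!
Approximate additivity of the mean free energy and the limiting free energy.
-/

open MeasureTheory ProbabilityTheory TH967.DP Filter
open scoped Topology

set_option linter.unusedSectionVars false

namespace Pool.Agent.K1H38.DP

variable {d : ℕ} {Ω : Type*} [MeasurableSpace Ω] {P : Measure Ω} [IsProbabilityMeasure P]
  {ω : ℕ → (Fin d → ℤ) → Ω → ℝ}

lemma shift_zero (η : ℕ → (Fin d → ℤ) → ℝ) : shift 0 0 η = η := by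
  unfold shift
  simp

lemma good_log {β c : ℝ} {ι : Type} {G : ι → Fin d → ℝ} {N : ℕ} {a : Ω}
    (hg : a ∉ BadEv P ω β c G N) (i : ι) {n m : ℕ} (hn : n ≤ N) (hm : m ≤ N) {y : Fin d → ℤ}
    (hy : ∀ k, |y k| ≤ (N : ℤ)) :
    |Real.log (Zd β (G i) (shift m y (fld ω a)) n) - Lm P ω β (G i) n| ≤ (N : ℝ) ^ c := by
  by_contra hcon
  push Not at hcon
  exact hg ⟨i, n, hn, m, hm, y, hy, hcon⟩

lemma good_log0 {β c : ℝ} {ι : Type} {G : ι → Fin d → ℝ} {N : ℕ} {a : Ω}
    (hg : a ∉ BadEv P ω β c G N) (i : ι) {n : ℕ} (hn : n ≤ N) :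
    |Real.log (Zd β (G i) (fld ω a) n) - Lm P ω β (G i) n| ≤ (N : ℝ) ^ c := by
  have h := good_log hg i hn (Nat.zero_le N) (y := 0) (fun k => by simp)
  rwa [shift_zero] at h

lemma add_of_good [NeZero d] {β c : ℝ} {ι : Type} {G : ι → Fin d → ℝ} {m n : ℕ} {a : Ω}
    (hg : a ∉ BadEv P ω β c G (m + n)) (i : ι) :
    |Lm P ω β (G i) (m + n) - Lm P ω β (G i) m - Lm P ω β (G i) n| ≤
      3 * ((m + n : ℕ) : ℝ) ^ c := by
  set E := ((m + n : ℕ) : ℝ) ^ c with hE
  set η := fld ω a with hη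
  have h1 := abs_le.1 (good_log0 hg i le_rfl)
  have h2 := abs_le.1 (good_log0 hg i (n := m) (by omega))
  have h3 : ∀ y : Fin d → ℤ, (∀ k, |y k| ≤ (m : ℤ)) →
      |Real.log (Zd β (G i) (shift m y η) n) - Lm P ω β (G i) n| ≤ E := fun y hy =>
    good_log hg i (by omega) (by omega) (fun k => (hy k).trans (by push_cast; omega))
  have up : Zd β (G i) η (m + n) ≤ Zd β (G i) η m * Real.exp (Lm P ω β (G i) n + E) := by
    apply Zd_append_le
    intro y hy
    rw [← Real.exp_log (Zd_pos β (G i) (shift m y η) n)]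
    apply Real.exp_le_exp.2
    have := (abs_le.1 (h3 y hy)).2
    linarith
  have lo : Zd β (G i) η m * Real.exp (Lm P ω β (G i) n - E) ≤ Zd β (G i) η (m + n) := by
    apply Zd_append_ge
    intro y hy
    rw [← Real.exp_log (Zd_pos β (G i) (shift m y η) n)]
    apply Real.exp_le_exp.2
    have := (abs_le.1 (h3 y hy)).1
    linarith
  have up' := Real.log_le_log (Zd_pos β (G i) η (m + n)) up
  have lo' := Real.log_le_log (mul_pos (Zd_pos β (G i) η m) (Real.exp_pos _)) lo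
  rw [Real.log_mul (Zd_pos β (G i) η m).ne' (Real.exp_pos _).ne', Real.log_exp] at up' lo'
  rw [abs_le]
  constructor <;> linarith [h1.1, h1.2, h2.1, h2.2]

/-- approximate additivity -/
theorem additive [NeZero d] (he : IsEnv P ω) (hexp : HasExp P ω) (β : ℝ) {c s C : ℝ} (hc : 0 < c)
    (hs : 0 < s) {S : Set (Fin d → ℝ)} (H : ∀ n : ℕ, 1 ≤ n → ∀ h ∈ S,
      P.real (dev P ω β h n ((n : ℝ) ^ c)) ≤ C * Real.exp (-(n : ℝ) ^ s)) :
    ∃ N₀ : ℕ, ∀ h ∈ S, ∀ m n : ℕ, N₀ ≤ m + n →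
      |Lm P ω β h (m + n) - Lm P ω β h m - Lm P ω β h n| ≤ 3 * ((m + n : ℕ) : ℝ) ^ c := by
  obtain ⟨s', C', hs', hC', hu⟩ := tail_unif he hexp β hc hs H
  have h1 := (poly_exp (d + 2) hs').mul_const C'
  rw [zero_mul] at h1
  have h2 := (h1.eventually_lt_const one_pos).and (eventually_ge_atTop 1)
  obtain ⟨N₀, hN₀⟩ := eventually_atTop.1 h2
  refine ⟨N₀, fun h hh m n hmn => ?_⟩
  obtain ⟨h3, h4⟩ := hN₀ (m + n) hmn
  have hb := bad_bound (P := P) he β c (fun _ : Unit => h) (m + n)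
    (B := C' * Real.exp (-((m + n : ℕ) : ℝ) ^ s')) (by positivity)
    (fun _ k hk => hu (m + n) h4 k hk h hh)
  have hlt : P.real (BadEv P ω β c (fun _ : Unit => h) (m + n)) < 1 := by
    refine lt_of_le_of_lt hb ?_
    rw [Fintype.card_unit]
    push_cast at h3 ⊢
    linarith
  have hne : ∃ a, a ∉ BadEv P ω β c (fun _ : Unit => h) (m + n) := by
    by_contra hcon
    push Not at hcon
    have : BadEv P ω β c (fun _ : Unit => h) (m + n) = Set.univ := Set.eq_univ_of_forall hcon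
    rw [this, probReal_univ] at hlt
    exact lt_irrefl _ hlt
  obtain ⟨a, ha⟩ := hne
  exact add_of_good ha ()

lemma Lm_lip [NeZero d] (he : IsEnv P ω) (hexp : HasExp P ω) (β : ℝ) {h g : Fin d → ℝ} {r : ℝ}
    (hr : ∀ k, |h k - g k| ≤ r) (n : ℕ) : |Lm P ω β h n - Lm P ω β g n| ≤ n * r := by
  unfold Lm
  rw [← integral_sub (integrable_log_Zd he hexp β h n) (integrable_log_Zd he hexp β g n)]
  refine (abs_integral_le_integral_abs).trans ?_
  have hi : Integrable (fun a => |Real.log (Zd β h (fld ω a) n) - Real.log (Zd β g (fld ω a) n)|) P :=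
    ((integrable_log_Zd he hexp β h n).sub (integrable_log_Zd he hexp β g n)).abs
  calc ∫ a, |Real.log (Zd β h (fld ω a) n) - Real.log (Zd β g (fld ω a) n)| ∂P ≤
      ∫ _, (n : ℝ) * r ∂P := integral_mono hi (integrable_const _) (fun a => log_Zd_lip β hr _ n)
    _ = n * r := by simp

lemma Lm_convex [NeZero d] (he : IsEnv P ω) (hexp : HasExp P ω) (β : ℝ) (n : ℕ)
    (h g : Fin d → ℝ) {a b : ℝ} (ha : 0 ≤ a) (hb : 0 ≤ b) (hab : a + b = 1) :
    Lm P ω β (a • h + b • g) n ≤ a * Lm P ω β h n + b * Lm P ω β g n := by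
  unfold Lm
  rw [← integral_const_mul, ← integral_const_mul, ← integral_add
    ((integrable_log_Zd he hexp β h n).const_mul a) ((integrable_log_Zd he hexp β g n).const_mul b)]
  exact integral_mono (integrable_log_Zd he hexp β _ n)
    (((integrable_log_Zd he hexp β h n).const_mul a).add
      ((integrable_log_Zd he hexp β g n).const_mul b))
    (fun x => log_Zd_convex β (fld ω x) n h g ha hb hab)

/-- the limiting free energy -/
theorem exists_p [NeZero d] (he : IsEnv P ω) (hexp : HasExp P ω) (β : ℝ) :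
    ∃ p : (Fin d → ℝ) → ℝ, (∀ h, Tendsto (fun k : ℕ => Lm P ω β h (2 ^ k) / 2 ^ k) atTop (𝓝 (p h))) ∧
      ConvexOn ℝ Set.univ p ∧ Continuous p := by
  obtain ⟨s, C, hs, hC, ht⟩ := tail_half he hexp β (c := 3 / 4) (by norm_num) (by norm_num)
  obtain ⟨N₀, hN₀⟩ := additive he hexp β (c := 3 / 4) (by norm_num) hs (S := Set.univ)
    (fun n hn h _ => ht n hn h)
  have hlim : ∀ h, ∃ p, Tendsto (fun k : ℕ => Lm P ω β h (2 ^ k) / 2 ^ k) atTop (𝓝 p) := by
    intro h
    set q : ℝ := (2 : ℝ) ^ (-(1 : ℝ) / 4) with hq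
    have hq0 : 0 < q := by rw [hq]; positivity
    have hq1 : q < 1 := by
      rw [hq]
      exact Real.rpow_lt_one_of_one_lt_of_neg (by norm_num) (by norm_num)
    have hqp : ∀ j : ℕ, ((2 ^ j : ℕ) : ℝ) ^ (3 / 4 : ℝ) = 2 ^ j * q ^ j := by
      intro j
      rw [hq]
      push_cast
      rw [← Real.rpow_natCast 2 j, ← Real.rpow_mul (by norm_num),
        ← Real.rpow_natCast (2 ^ (-(1 : ℝ) / 4)) j,
        ← Real.rpow_mul (by norm_num), ← Real.rpow_add (by norm_num)]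
      congr 1; ring
    have step : ∀ k : ℕ, dist (Lm P ω β h (2 ^ (k + N₀)) / 2 ^ (k + N₀))
        (Lm P ω β h (2 ^ (k + 1 + N₀)) / 2 ^ (k + 1 + N₀)) ≤ 3 * q ^ (1 + N₀) * q ^ k := by
      intro k
      have h1 := hN₀ h (Set.mem_univ h) (2 ^ (k + N₀)) (2 ^ (k + N₀)) (by
        have : k + N₀ < 2 ^ (k + N₀) := Nat.lt_two_pow_self
        omega)
      rw [← two_mul, ← pow_succ', hqp] at h1
      rw [dist_comm, Real.dist_eq, show k + 1 + N₀ = k + N₀ + 1 by ring]
      have e : Lm P ω β h (2 ^ (k + N₀ + 1)) / 2 ^ (k + N₀ + 1) -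
          Lm P ω β h (2 ^ (k + N₀)) / 2 ^ (k + N₀) =
          (Lm P ω β h (2 ^ (k + N₀ + 1)) - Lm P ω β h (2 ^ (k + N₀)) -
            Lm P ω β h (2 ^ (k + N₀))) / 2 ^ (k + N₀ + 1) := by
        rw [pow_succ (2 : ℝ)]; field_simp; ring
      rw [e, abs_div, abs_of_pos (by positivity : (0 : ℝ) < 2 ^ (k + N₀ + 1)),
        div_le_iff₀ (by positivity)]
      refine h1.trans (le_of_eq ?_)
      rw [show k + N₀ + 1 = k + (1 + N₀) by ring, pow_add q k (1 + N₀)]
      ring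
    have hc := cauchySeq_of_le_geometric q (3 * q ^ (1 + N₀)) hq1 step
    obtain ⟨p, hp⟩ := cauchySeq_tendsto_of_complete hc
    exact ⟨p, (tendsto_add_atTop_iff_nat N₀).1 hp⟩
  choose p hp using hlim
  refine ⟨p, hp, ⟨convex_univ, ?_⟩, ?_⟩
  · intro h _ g _ a b ha hb hab
    have t1 := hp (a • h + b • g)
    have t2 := ((hp h).const_mul a).add ((hp g).const_mul b)
    refine le_of_tendsto_of_tendsto' t1 t2 (fun k => ?_)
    have := Lm_convex he hexp β (2 ^ k) h g ha hb hab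
    rw [div_le_iff₀ (by positivity)]
    field_simp
    linarith
  · have hl : LipschitzWith 1 p := by
      apply LipschitzWith.of_dist_le_mul
      intro h g
      rw [Real.dist_eq]
      push_cast
      rw [one_mul]
      have t1 := ((hp h).sub (hp g)).abs
      refine le_of_tendsto t1 (Eventually.of_forall fun k => ?_)
      have := Lm_lip he hexp β (h := h) (g := g) (r := dist h g) (fun k => by
        have := dist_le_pi_dist h g k
        rwa [Real.dist_eq] at this) (2 ^ k)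
      rw [← sub_div, abs_div, abs_of_pos (by positivity : (0 : ℝ) < 2 ^ k),
        div_le_iff₀ (by positivity)]
      push_cast at this
      linarith
    exact hl.continuous

/-- increments of the mean free energy in the drift are close to linear -/
theorem incr [NeZero d] (he : IsEnv P ω) (hexp : HasExp P ω) (β : ℝ) {c s C : ℝ} (hc : 0 < c)
    (hc1 : c < 1) (hs : 0 < s) {S : Set (Fin d → ℝ)} (H : ∀ n : ℕ, 1 ≤ n → ∀ h ∈ S,
      P.real (dev P ω β h n ((n : ℝ) ^ c)) ≤ C * Real.exp (-(n : ℝ) ^ s))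
    {p : (Fin d → ℝ) → ℝ}
    (hp : ∀ h, Tendsto (fun k : ℕ => Lm P ω β h (2 ^ k) / 2 ^ k) atTop (𝓝 (p h))) :
    ∃ A : ℝ, 0 ≤ A ∧ ∀ h ∈ S, ∀ g ∈ S, (∀ k, |g k - h k| ≤ 1) → ∀ m : ℕ,
      |Lm P ω β g m - Lm P ω β h m - m * (p g - p h)| ≤ A * (m : ℝ) ^ c := by
  obtain ⟨N₀, hN₀⟩ := additive he hexp β hc hs H
  obtain ⟨A, hA, hseq⟩ := seq_add hc hc1 (K := 6) (by norm_num) N₀
  refine ⟨A, hA, fun h hh g hg hhg m => ?_⟩
  refine hseq (fun m => Lm P ω β g m - Lm P ω β h m) (p g - p h) ?_ ?_ ?_ m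
  · intro m n hmn
    have h1 := abs_le.1 (hN₀ h hh m n hmn)
    have h2 := abs_le.1 (hN₀ g hg m n hmn)
    rw [abs_le]
    constructor <;> linarith [h1.1, h1.2, h2.1, h2.2]
  · intro m
    have := Lm_lip he hexp β (r := 1) hhg m
    rwa [mul_one] at this
  · have := (hp g).sub (hp h)
    refine this.congr (fun k => ?_)
    rw [sub_div]

end Pool.Agent.K1H38.DP
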