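import Pool.Agent.K1H38.DP.Cher
import Pool.Agent.K1H53.SD.AC
import Pool.Agent.K1H53.SD.Gap

/-!
Anti-concentration of the free energy of a polymer that is confined to a tube.
-/

open MeasureTheory ProbabilityTheory TH967.DP Filter
open scoped Topology
open Classical

set_option linter.unusedSectionVars false

namespace Pool.Agent.K1H38.DP

variable {d : ℕ}

/-- the sites of the tube -/
noncomputable def tsite (n : ℕ) (v : Fin d → ℝ) (R : ℝ) : Finset (ℕ × (Fin d → ℤ)) :=
  (Finset.range n).biUnion (fun i => (Finset.Icc (fun k => ⌈((i : ℝ) + 1) * v k - R⌉)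
    (fun k => ⌊((i : ℝ) + 1) * v k + R⌋)).image (fun x => (i + 1, x)))

lemma card_tsite (n : ℕ) (v : Fin d → ℝ) {R : ℝ} (hR : 0 ≤ R) :
    ((tsite n v R).card : ℝ) ≤ n * (2 * R + 1) ^ d := by
  have h1 : ∀ i ∈ Finset.range n, ((((Finset.Icc (fun k : Fin d => ⌈((i : ℝ) + 1) * v k - R⌉)
    (fun k => ⌊((i : ℝ) + 1) * v k + R⌋)).image (fun x => (i + 1, x))).card : ℕ) : ℝ) ≤
      (2 * R + 1) ^ d := by
    intro i _
    have h2 : (((Finset.Icc (fun k : Fin d => ⌈((i : ℝ) + 1) * v k - R⌉)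
      (fun k => ⌊((i : ℝ) + 1) * v k + R⌋)).card : ℕ) : ℝ) ≤ (2 * R + 1) ^ d := by
      rw [Pi.card_Icc]
      push_cast
      calc ∏ k : Fin d, (((Finset.Icc ⌈((i : ℝ) + 1) * v k - R⌉
          ⌊((i : ℝ) + 1) * v k + R⌋).card : ℕ) : ℝ) ≤ ∏ _k : Fin d, (2 * R + 1) := by
            apply Finset.prod_le_prod
            · intro k _; positivity
            · intro k _
              rw [Int.card_Icc]
              have a1 := Int.floor_le (((i : ℝ) + 1) * v k + R)
              have a2 := Int.le_ceil (((i : ℝ) + 1) * v k - R)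
              have a3 : (((⌊((i : ℝ) + 1) * v k + R⌋ + 1 -
                ⌈((i : ℝ) + 1) * v k - R⌉).toNat : ℤ) : ℝ) ≤ 2 * R + 1 := by
                rw [Int.toNat_eq_max]
                push_cast
                apply max_le
                · linarith
                · linarith
              exact_mod_cast a3
        _ = (2 * R + 1) ^ d := by simp
    refine le_trans ?_ h2
    exact_mod_cast Finset.card_image_le
  unfold tsite
  calc _ ≤ ((∑ i ∈ Finset.range n, ((Finset.Icc (fun k : Fin d => ⌈((i : ℝ) + 1) * v k - R⌉)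
      (fun k => ⌊((i : ℝ) + 1) * v k + R⌋)).image (fun x => (i + 1, x))).card : ℕ) : ℝ) := by
        exact_mod_cast Finset.card_biUnion_le
    _ ≤ ∑ i ∈ Finset.range n, (2 * R + 1) ^ d := by
        push_cast
        exact Finset.sum_le_sum h1
    _ = _ := by rw [Finset.sum_const, Finset.card_range, nsmul_eq_mul]

lemma mem_tsite {n : ℕ} {v : Fin d → ℝ} {R : ℝ} {w : Fin n → Step d} (hw : w ∈ tube n v R)
    (i : Fin n) : (i.val + 1, pos w (i.val + 1)) ∈ tsite n v R := by
  unfold tsite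
  rw [Finset.mem_biUnion]
  refine ⟨i.val, Finset.mem_range.2 i.2, ?_⟩
  rw [Finset.mem_image]
  refine ⟨pos w (i.val + 1), ?_, rfl⟩
  have hk : ∀ k, |(pos w (i.val + 1) k : ℝ) - ((i.val : ℝ) + 1) * v k| ≤ R := by
    intro k
    have h1 := hw (i.val + 1) (by have := i.2; omega)
    refine le_trans ?_ h1
    apply Real.le_sqrt_of_sq_le
    rw [sq_abs]
    push_cast
    exact Finset.single_le_sum (f := fun k => ((pos w (i.val + 1) k : ℝ) -
      ((i.val : ℝ) + 1) * v k) ^ 2) (fun _ _ => sq_nonneg _) (Finset.mem_univ k)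
  rw [Finset.mem_Icc, Pi.le_def, Pi.le_def]
  constructor
  · intro k
    have := (abs_le.1 (hk k)).1
    exact Int.ceil_le.2 (by linarith)
  · intro k
    have := (abs_le.1 (hk k)).2
    exact Int.le_floor.2 (by linarith)

/-- walks in the tube -/
abbrev TW (d n : ℕ) (v : Fin d → ℝ) (R : ℝ) : Type := {w : Fin n → Step d // w ∈ tube n v R}

/-- sites of the tube as a type -/
abbrev TS (n : ℕ) (v : Fin d → ℝ) (R : ℝ) : Type := {s : ℕ × (Fin d → ℤ) // s ∈ tsite n v R}

/-- the visited sites -/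
noncomputable def tvis {n : ℕ} {v : Fin d → ℝ} {R : ℝ} (w : TW d n v R) : Finset (TS n v R) :=
  Finset.univ.image (fun i : Fin n => (⟨(i.val + 1, pos w.1 (i.val + 1)), mem_tsite w.2 i⟩ :
    TS n v R))

lemma tvis_inj {n : ℕ} {v : Fin d → ℝ} {R : ℝ} (w : TW d n v R) : Function.Injective
    (fun i : Fin n => (⟨(i.val + 1, pos w.1 (i.val + 1)), mem_tsite w.2 i⟩ : TS n v R)) := by
  intro i j hij
  have h1 := congrArg (fun s : TS n v R => s.1.1) hij
  simp only at h1
  exact Fin.ext (by omega)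

lemma card_tvis {n : ℕ} {v : Fin d → ℝ} {R : ℝ} (w : TW d n v R) : (tvis w).card = n := by
  unfold tvis
  rw [Finset.card_image_of_injective _ (tvis_inj w)]
  simp

/-- the weight of the walks in the tube -/
noncomputable def Zt (β : ℝ) (h : Fin d → ℝ) (η : ℕ → (Fin d → ℤ) → ℝ) (n : ℕ) (v : Fin d → ℝ)
    (R : ℝ) : ℝ := ∑ w : Fin n → Step d, (tube n v R).indicator (wgt β h η) w

lemma Zt_eq (β : ℝ) (h : Fin d → ℝ) (η : ℕ → (Fin d → ℤ) → ℝ) (n : ℕ) (v : Fin d → ℝ)
    (R : ℝ) : Zt β h η n v R = K1H53.SD.ZZw β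
      (fun w : TW d n v R => Real.exp (dot h (pos w.1 n))) tvis
      (fun s : TS n v R => η s.1.1 s.1.2) := by
  unfold Zt K1H53.SD.ZZw
  have h1 : ∀ w : Fin n → Step d, (tube n v R).indicator (wgt β h η) w =
      if w ∈ tube n v R then wgt β h η w else 0 := fun w => Set.indicator_apply _ _ _
  simp_rw [h1]
  rw [← Finset.sum_filter, Finset.sum_subtype (p := fun w : Fin n → Step d => w ∈ tube n v R) _
    (by intro x; simp)]
  apply Finset.sum_congr rfl
  intro w _
  unfold tvis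
  rw [Finset.sum_image (fun i _ j _ hij => tvis_inj w hij)]
  unfold wgt energy
  rw [Real.exp_add]

lemma frProb_tube (β : ℝ) (h : Fin d → ℝ) (η : ℕ → (Fin d → ℤ) → ℝ) (n : ℕ) (v : Fin d → ℝ)
    (R : ℝ) : frProb β h η (tube n v R) = Zt β h η n v R / Zd β h η n := rfl

lemma Zt_le [NeZero d] (β : ℝ) (h : Fin d → ℝ) (η : ℕ → (Fin d → ℤ) → ℝ) (n : ℕ)
    (v : Fin d → ℝ) (R : ℝ) : Zt β h η n v R ≤ Zd β h η n := by
  unfold Zt Zd
  apply Finset.sum_le_sum
  intro w _
  exact Set.indicator_le_self' (fun _ _ => (wgt_pos _ _ _ _).le) w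

variable {Ω : Type*} [MeasurableSpace Ω] {P : Measure Ω} [IsProbabilityMeasure P]
  {ω : ℕ → (Fin d → ℤ) → Ω → ℝ}

/-- anti-concentration of the weight of the tube -/
theorem anti_tube (he : IsEnv P ω) {a₀ b₀ : ℝ} (hab : a₀ < b₀)
    (hp : 0 < (P.map (ω 1 0)).real (Set.Ici b₀)) (hm : 0 < (P.map (ω 1 0)).real (Set.Iic a₀))
    {β : ℝ} (hβ : 0 < β) (h : Fin d → ℝ) {n : ℕ} (hn : 1 ≤ n) (v : Fin d → ℝ) {R : ℝ}
    (hR : 0 ≤ R) (y : ℝ) {L : ℝ} (hL : 0 ≤ L) :
    P.real {a | 0 < Zt β h (fld ω a) n v R ∧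
      Real.log (Zt β h (fld ω a) n v R) ∈ Set.Icc y (y + L)} ≤
      (L + 2) * Real.sqrt (n * (2 * R + 1) ^ d *
        (1 / (P.map (ω 1 0)).real (Set.Ici b₀) + 1 / (P.map (ω 1 0)).real (Set.Iic a₀))) /
        (n * (1 - Real.exp (-(β * (b₀ - a₀))))) := by
  set μ := P.map (ω 1 0) with hμ
  have hprob : IsProbabilityMeasure μ := Measure.isProbabilityMeasure_map (he.meas 1 0).aemeasurable
  set Kc := 1 / μ.real (Set.Ici b₀) + 1 / μ.real (Set.Iic a₀) with hKc
  set q := 1 - Real.exp (-(β * (b₀ - a₀))) with hq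
  have hKpos : 0 < Kc := by positivity
  have hqpos : 0 < q := by
    rw [hq]
    have : Real.exp (-(β * (b₀ - a₀))) < 1 := by
      rw [Real.exp_lt_one_iff]
      have := mul_pos hβ (sub_pos.2 hab)
      linarith
    linarith
  have hnR : (0 : ℝ) < n := by exact_mod_cast hn
  by_cases hne : Nonempty (TW d n v R)
  swap
  · have hz : ∀ a, Zt β h (fld ω a) n v R = 0 := by
      intro a
      rw [Zt_eq]
      unfold K1H53.SD.ZZw
      have : IsEmpty (TW d n v R) := not_nonempty_iff.1 hne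
      exact Finset.sum_of_isEmpty _
    have : {a | 0 < Zt β h (fld ω a) n v R ∧
      Real.log (Zt β h (fld ω a) n v R) ∈ Set.Icc y (y + L)} = ∅ := by
      ext a
      simp only [Set.mem_ofPred_eq, Set.mem_empty_iff_false, iff_false, not_and]
      intro h1
      rw [hz a] at h1
      exact absurd h1 (lt_irrefl _)
    rw [this, measureReal_empty]
    positivity
  have hne1 : Nonempty (TS n v R) := by
    obtain ⟨w⟩ := hne
    have h1 := card_tvis w
    have h3 : 0 < (tvis w).card := by omega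
    obtain ⟨s, _⟩ := Finset.card_pos.1 h3
    exact ⟨s⟩
  set c : TW d n v R → ℝ := fun w => Real.exp (dot h (pos w.1 n)) with hc
  have hac := K1H53.SD.anti_concw (c := c) (fun w => Real.exp_pos _) μ hab hp hm hβ
      (tvis (n := n) (v := v) (R := R)) (m := n) (fun w => card_tvis w) (y := y)
      (L := L) hL
  rw [← hKc, ← hq] at hac
  have hlaw : P.map (fun a (s : TS n v R) => ω s.1.1 s.1.2 a) =
      Measure.pi (fun _ : TS n v R => μ) :=
    law1 he (κ := TS n v R) (φ := fun s => s.1) Subtype.val_injective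
  have mf : Measurable (fun a (s : TS n v R) => ω s.1.1 s.1.2 a) := by
    rw [measurable_pi_iff]; intro s; exact he.meas _ _
  have hpre : P.real {a | 0 < Zt β h (fld ω a) n v R ∧
      Real.log (Zt β h (fld ω a) n v R) ∈ Set.Icc y (y + L)} ≤
      (Measure.pi (fun _ : TS n v R => μ)).real
        (K1H53.SD.YYw β c tvis ⁻¹' Set.Icc y (y + L)) := by
    rw [← hlaw, map_measureReal_apply mf
      ((K1H53.SD.measurable_YYw β c _) measurableSet_Icc)]
    apply measureReal_mono _ (measure_ne_top _ _)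
    rintro a ⟨_, ha⟩
    simp only [Set.mem_preimage]
    unfold K1H53.SD.YYw
    rw [Zt_eq] at ha
    exact ha
  refine hpre.trans ?_
  set X := (Measure.pi (fun _ : TS n v R => μ)).real
        (K1H53.SD.YYw β c tvis ⁻¹' Set.Icc y (y + L)) with hX
  rw [le_div_iff₀ (by positivity)]
  have hcard : (Fintype.card (TS n v R) : ℝ) ≤ n * (2 * R + 1) ^ d := by
    rw [Fintype.card_coe]
    exact card_tsite n v hR
  calc X * (n * q) = n * q * X := by ring
    _ ≤ (L + 2) * Real.sqrt (Fintype.card (TS n v R) * Kc) := hac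
    _ ≤ (L + 2) * Real.sqrt (n * (2 * R + 1) ^ d * Kc) := by
        apply mul_le_mul_of_nonneg_left _ (by linarith)
        apply Real.sqrt_le_sqrt
        exact mul_le_mul_of_nonneg_right hcard hKpos.le

/-- anti-concentration of the free energy -/
theorem anti_free [NeZero d] (he : IsEnv P ω) {a₀ b₀ : ℝ} (hab : a₀ < b₀)
    (hp : 0 < (P.map (ω 1 0)).real (Set.Ici b₀)) (hm : 0 < (P.map (ω 1 0)).real (Set.Iic a₀))
    {β : ℝ} (hβ : 0 < β) (h : Fin d → ℝ) {n : ℕ} (hn : 1 ≤ n) (v : Fin d → ℝ) {R : ℝ}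
    (hR : 0 ≤ R) (y : ℝ) {L : ℝ} (hL : 0 ≤ L) :
    P.real {a | |Real.log (Zd β h (fld ω a) n) - y| ≤ L} ≤
      P.real {a | frProb β h (fld ω a) (tube n v R) < 1 / 2} +
      (2 * L + 3) * Real.sqrt (n * (2 * R + 1) ^ d *
        (1 / (P.map (ω 1 0)).real (Set.Ici b₀) + 1 / (P.map (ω 1 0)).real (Set.Iic a₀))) /
        (n * (1 - Real.exp (-(β * (b₀ - a₀))))) := by
  have h1 := anti_tube he hab hp hm hβ h hn v hR (y - L - 1) (L := 2 * L + 1) (by linarith)
  have e : 2 * L + 1 + 2 = 2 * L + 3 := by ring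
  rw [e] at h1
  have hsub : {a | |Real.log (Zd β h (fld ω a) n) - y| ≤ L} ⊆
      {a | frProb β h (fld ω a) (tube n v R) < 1 / 2} ∪
      {a | 0 < Zt β h (fld ω a) n v R ∧
      Real.log (Zt β h (fld ω a) n v R) ∈ Set.Icc (y - L - 1) (y - L - 1 + (2 * L + 1))} := by
    intro a ha
    simp only [Set.mem_ofPred_eq] at ha
    by_cases hf : frProb β h (fld ω a) (tube n v R) < 1 / 2
    · exact Or.inl hf
    · right
      push Not at hf
      rw [frProb_tube, le_div_iff₀ (Zd_pos β h _ n)] at hf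
      have hZ := Zd_pos β h (fld ω a) n
      have hT : 0 < Zt β h (fld ω a) n v R := by linarith
      have u1 := Real.log_le_log hT (Zt_le β h (fld ω a) n v R)
      have u2 := Real.log_le_log (by positivity) hf
      rw [Real.log_mul (by norm_num) hZ.ne'] at u2
      have u3 : -1 ≤ Real.log (1 / 2) := by
        rw [Real.log_div one_ne_zero two_ne_zero, Real.log_one]
        have := Real.log_two_lt_d9
        linarith
      rw [abs_le] at ha
      refine ⟨hT, ?_, ?_⟩ <;> linarith [ha.1, ha.2]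
  calc _ ≤ P.real ({a | frProb β h (fld ω a) (tube n v R) < 1 / 2} ∪
      {a | 0 < Zt β h (fld ω a) n v R ∧
      Real.log (Zt β h (fld ω a) n v R) ∈ Set.Icc (y - L - 1) (y - L - 1 + (2 * L + 1))}) :=
        measureReal_mono hsub (measure_ne_top _ _)
    _ ≤ _ := (measureReal_union_le _ _).trans (by linarith)

end Pool.Agent.K1H38.DP
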