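import Pool.Agent.K1H38.DP.Tail

/-!
Moments of the free energy.
-/

open MeasureTheory ProbabilityTheory TH967.DP Filter
open scoped Topology

set_option linter.unusedSectionVars false

namespace Pool.Agent.K1H38.DP

variable {d : ℕ} {Ω : Type*} [MeasurableSpace Ω] {P : Measure Ω} [IsProbabilityMeasure P]
  {ω : ℕ → (Fin d → ℤ) → Ω → ℝ}

/-- exponential moments -/
theorem mgf_exists [NeZero d] (he : IsEnv P ω) (hexp : HasExp P ω) (β : ℝ) :
    ∃ C : ℝ, 0 < C ∧ ∀ (h : Fin d → ℝ) (n : ℕ) (t : ℝ), |t| ≤ 1 / 2 →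
      ∫⁻ a, ENNReal.ofReal (Real.exp (t * (Real.log (Zd β h (fld ω a) n) - Lm P ω β h n))) ∂P ≤
        ENNReal.ofReal (Real.exp (n * (C * t ^ 2))) := by
  have hp : IsProbabilityMeasure (P.map (ω 1 0)) :=
    Measure.isProbabilityMeasure_map (he.meas 1 0).aemeasurable
  have hC := K1H53.CN.CC_nonneg (P.map (ω 1 0)) β
  refine ⟨K1H53.CN.CC (P.map (ω 1 0)) β + 1, by linarith, fun h n t ht => ?_⟩
  have h1 := K1H53.CN.LZ_mgf (P := P) (ω := ω) (μ := P.map (ω 1 0)) (β := β)
    (c := fun w : Fin n → Step d => Real.exp (dot h (pos w n))) he.meas he.indep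
    (fun i x => (he.ident i x).map_eq) (hexp_map he hexp) (fun w => Real.exp_pos _) n
    (fun w i => pos w (i + 1)) ht
  unfold Lm
  simp_rw [log_eq_LZ]
  refine h1.trans ?_
  apply ENNReal.ofReal_le_ofReal
  apply Real.exp_le_exp.2
  apply mul_le_mul_of_nonneg_left _ (Nat.cast_nonneg n)
  nlinarith [sq_nonneg t]

lemma four_le (x : ℝ) : x ^ 4 ≤ 24 * (Real.exp x + Real.exp (-x)) := by
  have h1 : ∀ y : ℝ, 0 ≤ y → y ^ 4 ≤ 24 * Real.exp y := by
    intro y hy
    have := Real.pow_div_factorial_le_exp y hy 4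
    have e : ((Nat.factorial 4 : ℕ) : ℝ) = 24 := by norm_num [Nat.factorial]
    rw [e] at this
    linarith
  rcases le_total 0 x with hx | hx
  · have := h1 x hx
    have := Real.exp_pos (-x)
    linarith
  · have h2 := h1 (-x) (by linarith)
    have e : (-x) ^ 4 = x ^ 4 := by ring
    rw [e] at h2
    have := Real.exp_pos x
    linarith

/-- fourth moments -/
theorem fourth [NeZero d] (he : IsEnv P ω) (hexp : HasExp P ω) (β : ℝ) :
    ∃ K : ℝ, 0 < K ∧ ∀ (h : Fin d → ℝ) (n : ℕ), 1 ≤ n →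
      Integrable (fun a => (Real.log (Zd β h (fld ω a) n) - Lm P ω β h n) ^ 4) P ∧
      ∫ a, (Real.log (Zd β h (fld ω a) n) - Lm P ω β h n) ^ 4 ∂P ≤ K * (n : ℝ) ^ 2 := by
  obtain ⟨C, hC, hm⟩ := mgf_exists he hexp β
  refine ⟨768 * Real.exp (C / 4), by positivity, fun h n hn => ?_⟩
  have hnR : (1 : ℝ) ≤ n := by exact_mod_cast hn
  have hn0 : (0 : ℝ) < n := by linarith
  set X : Ω → ℝ := fun a => Real.log (Zd β h (fld ω a) n) - Lm P ω β h n with hX
  have mX : Measurable X :=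
    (Real.measurable_log.comp ((measurable_Zd β h n).comp (measurable_fld he))).sub_const _
  set t : ℝ := 1 / (2 * Real.sqrt n) with ht
  have hsn : 0 < Real.sqrt n := Real.sqrt_pos.2 hn0
  have hsn1 : 1 ≤ Real.sqrt n := Real.one_le_sqrt.2 hnR
  have hsq : Real.sqrt n * Real.sqrt n = n := Real.mul_self_sqrt hn0.le
  have ht0 : 0 < t := by rw [ht]; positivity
  have ht1 : t ≤ 1 / 2 := by
    rw [ht]
    apply one_div_le_one_div_of_le (by norm_num)
    linarith
  have htn : (n : ℝ) * (C * t ^ 2) = C / 4 := by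
    rw [ht, div_pow, mul_pow, pow_two (Real.sqrt n), hsq]
    field_simp
    norm_num
  have h1 := hm h n t (by rw [abs_of_pos ht0]; exact ht1)
  have h2 := hm h n (-t) (by rw [abs_neg, abs_of_pos ht0]; exact ht1)
  rw [htn] at h1
  rw [neg_sq, htn] at h2
  have key : ∫⁻ a, ENNReal.ofReal (X a ^ 4) ∂P ≤
      ENNReal.ofReal (768 * Real.exp (C / 4) * (n : ℝ) ^ 2) := by
    have hpt : ∀ a, ENNReal.ofReal (X a ^ 4) ≤ ENNReal.ofReal (384 * (n : ℝ) ^ 2) *
        (ENNReal.ofReal (Real.exp (t * X a)) + ENNReal.ofReal (Real.exp (-t * X a))) := by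
      intro a
      rw [← ENNReal.ofReal_add (Real.exp_pos _).le (Real.exp_pos _).le,
        ← ENNReal.ofReal_mul (by positivity)]
      apply ENNReal.ofReal_le_ofReal
      have h3 := four_le (t * X a)
      have h4 : X a ^ 4 = 16 * (n : ℝ) ^ 2 * (t * X a) ^ 4 := by
        rw [ht]
        have : (1 / (2 * Real.sqrt n) * X a) ^ 4 = X a ^ 4 /
            (16 * ((Real.sqrt n * Real.sqrt n) * (Real.sqrt n * Real.sqrt n))) := by
          field_simp
          ring
        rw [this, hsq]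
        field_simp
      rw [h4, neg_mul]
      nlinarith [sq_nonneg (n : ℝ)]
    calc ∫⁻ a, ENNReal.ofReal (X a ^ 4) ∂P ≤ ∫⁻ a, ENNReal.ofReal (384 * (n : ℝ) ^ 2) *
        (ENNReal.ofReal (Real.exp (t * X a)) + ENNReal.ofReal (Real.exp (-t * X a))) ∂P :=
          lintegral_mono hpt
      _ = ENNReal.ofReal (384 * (n : ℝ) ^ 2) * (∫⁻ a, ENNReal.ofReal (Real.exp (t * X a)) ∂P +
          ∫⁻ a, ENNReal.ofReal (Real.exp (-t * X a)) ∂P) := by
          have m1 : Measurable (fun a => ENNReal.ofReal (Real.exp (t * X a))) :=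
            (Real.measurable_exp.comp (mX.const_mul t)).ennreal_ofReal
          have m2 : Measurable (fun a => ENNReal.ofReal (Real.exp (-t * X a))) :=
            (Real.measurable_exp.comp (mX.const_mul (-t))).ennreal_ofReal
          have m3 : Measurable (fun a => ENNReal.ofReal (Real.exp (t * X a)) +
            ENNReal.ofReal (Real.exp (-t * X a))) := m1.add m2
          rw [lintegral_const_mul _ m3, lintegral_add_left m1]
      _ ≤ ENNReal.ofReal (384 * (n : ℝ) ^ 2) * (ENNReal.ofReal (Real.exp (C / 4)) +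
          ENNReal.ofReal (Real.exp (C / 4))) := by
          gcongr
      _ = _ := by
          rw [← ENNReal.ofReal_add (Real.exp_pos _).le (Real.exp_pos _).le,
            ← ENNReal.ofReal_mul (by positivity)]
          congr 1
          ring
  have hnn : ∀ a, 0 ≤ X a ^ 4 := fun a => by positivity
  have hint : Integrable (fun a => X a ^ 4) P := by
    refine ⟨(mX.pow_const 4).aestronglyMeasurable, ?_⟩
    rw [hasFiniteIntegral_iff_ofReal (Eventually.of_forall hnn)]
    exact lt_of_le_of_lt key ENNReal.ofReal_lt_top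
  refine ⟨hint, ?_⟩
  rw [integral_eq_lintegral_of_nonneg_ae (Eventually.of_forall hnn) hint.1]
  exact ENNReal.toReal_le_of_le_ofReal (by positivity) key

lemma integrable_sq [NeZero d] (he : IsEnv P ω) (hexp : HasExp P ω) (β : ℝ) (h : Fin d → ℝ)
    {n : ℕ} (hn : 1 ≤ n) :
    Integrable (fun a => (Real.log (Zd β h (fld ω a) n) - Lm P ω β h n) ^ 2) P := by
  obtain ⟨K, hK, hf⟩ := fourth he hexp β
  obtain ⟨h1, -⟩ := hf h n hn
  have mX : Measurable (fun a => Real.log (Zd β h (fld ω a) n) - Lm P ω β h n) :=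
    (Real.measurable_log.comp ((measurable_Zd β h n).comp (measurable_fld he))).sub_const _
  refine Integrable.mono' ((integrable_const (1 : ℝ)).add h1)
    (mX.pow_const 2).aestronglyMeasurable (Eventually.of_forall fun a => ?_)
  rw [Real.norm_of_nonneg (sq_nonneg _)]
  simp only [Pi.add_apply]
  nlinarith [sq_nonneg ((Real.log (Zd β h (fld ω a) n) - Lm P ω β h n) ^ 2 - 1),
    sq_nonneg (Real.log (Zd β h (fld ω a) n) - Lm P ω β h n)]

/-- the variance -/
noncomputable def Vr (P : Measure Ω) (ω : ℕ → (Fin d → ℤ) → Ω → ℝ) (β : ℝ) (h : Fin d → ℝ)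
    (n : ℕ) : ℝ := ∫ a, (Real.log (Zd β h (fld ω a) n) - Lm P ω β h n) ^ 2 ∂P

theorem Vr_linear [NeZero d] (he : IsEnv P ω) (hexp : HasExp P ω) (β : ℝ) :
    ∃ K : ℝ, 0 < K ∧ ∀ (h : Fin d → ℝ) (n : ℕ), 1 ≤ n → Vr P ω β h n ≤ K * n := by
  obtain ⟨K, hK, hf⟩ := fourth he hexp β
  refine ⟨K + 1, by linarith, fun h n hn => ?_⟩
  obtain ⟨h1, h2⟩ := hf h n hn
  have hnR : (1 : ℝ) ≤ n := by exact_mod_cast hn
  have hn0 : (0 : ℝ) < n := by linarith
  have h3 := integrable_sq he hexp β h hn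
  unfold Vr
  calc ∫ a, (Real.log (Zd β h (fld ω a) n) - Lm P ω β h n) ^ 2 ∂P ≤
      ∫ a, ((n : ℝ) + 1 / n * (Real.log (Zd β h (fld ω a) n) - Lm P ω β h n) ^ 4) ∂P := by
        refine integral_mono h3 ((integrable_const _).add (h1.const_mul _)) (fun a => ?_)
        simp only
        set X := Real.log (Zd β h (fld ω a) n) - Lm P ω β h n
        have e : (n : ℝ) + 1 / n * X ^ 4 - X ^ 2 = ((X ^ 2 - n / 2) ^ 2 + 3 / 4 * n ^ 2) / n := by
          field_simp; ring
        have : 0 ≤ ((X ^ 2 - n / 2) ^ 2 + 3 / 4 * (n : ℝ) ^ 2) / n := by positivity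
        linarith
    _ = n + 1 / n * ∫ a, (Real.log (Zd β h (fld ω a) n) - Lm P ω β h n) ^ 4 ∂P := by
        rw [integral_add (integrable_const _) (h1.const_mul _), integral_const_mul]
        simp
    _ ≤ n + 1 / n * (K * (n : ℝ) ^ 2) := by
        have := mul_le_mul_of_nonneg_left h2 (by positivity : (0 : ℝ) ≤ 1 / n)
        linarith
    _ = (K + 1) * n := by field_simp; ring

/-- tails bound the variance -/
theorem Vr_tail [NeZero d] (he : IsEnv P ω) (hexp : HasExp P ω) (β : ℝ) (h : Fin d → ℝ)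
    {c s C : ℝ} (hs : 0 < s)
    (H : ∀ n : ℕ, 1 ≤ n → P.real (dev P ω β h n ((n : ℝ) ^ c)) ≤ C * Real.exp (-(n : ℝ) ^ s)) :
    ∃ K : ℝ, ∀ᶠ n : ℕ in atTop, Vr P ω β h n ≤ (n : ℝ) ^ (2 * c) + K := by
  obtain ⟨K, hK, hf⟩ := fourth he hexp β
  refine ⟨K + 1, ?_⟩
  have h0 := (poly_exp 2 hs).mul_const |C|
  rw [zero_mul] at h0
  filter_upwards [h0.eventually_lt_const one_pos, eventually_ge_atTop 1] with n hn1 hn
  obtain ⟨h1, h2⟩ := hf h n hn
  have hnR : (1 : ℝ) ≤ n := by exact_mod_cast hn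
  have hn0 : (0 : ℝ) < n := by linarith
  have h3 := integrable_sq he hexp β h hn
  set A := dev P ω β h n ((n : ℝ) ^ c) with hA
  have mX : Measurable (fun a => Real.log (Zd β h (fld ω a) n) - Lm P ω β h n) :=
    (Real.measurable_log.comp ((measurable_Zd β h n).comp (measurable_fld he))).sub_const _
  have mA : MeasurableSet A := measurableSet_lt measurable_const mX.abs
  have hi : Integrable (A.indicator (fun _ => (n : ℝ) ^ 2 / 4)) P :=
    (integrable_const _).indicator mA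
  have hpt : ∀ a, (Real.log (Zd β h (fld ω a) n) - Lm P ω β h n) ^ 2 ≤ (n : ℝ) ^ (2 * c) +
      (1 / (n : ℝ) ^ 2 * (Real.log (Zd β h (fld ω a) n) - Lm P ω β h n) ^ 4 +
      A.indicator (fun _ => (n : ℝ) ^ 2 / 4) a) := by
    intro a
    set X := Real.log (Zd β h (fld ω a) n) - Lm P ω β h n with hX
    by_cases ha : a ∈ A
    · rw [Set.indicator_of_mem ha]
      have e : 1 / (n : ℝ) ^ 2 * X ^ 4 + (n : ℝ) ^ 2 / 4 - X ^ 2 =
          (X ^ 2 / n - n / 2) ^ 2 := by
        field_simp; ring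
      have := sq_nonneg (X ^ 2 / n - n / 2)
      have := Real.rpow_nonneg hn0.le (2 * c)
      linarith
    · rw [Set.indicator_of_notMem ha]
      have ha' : |X| ≤ (n : ℝ) ^ c := by
        rw [hA] at ha
        unfold dev at ha
        simpa using ha
      have h4 : X ^ 2 ≤ (n : ℝ) ^ (2 * c) := by
        have e : (n : ℝ) ^ (2 * c) = ((n : ℝ) ^ c) ^ 2 := by
          rw [← Real.rpow_natCast, ← Real.rpow_mul hn0.le]
          congr 1; push_cast; ring
        rw [e, ← sq_abs X]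
        exact pow_le_pow_left₀ (abs_nonneg _) ha' 2
      have : 0 ≤ 1 / (n : ℝ) ^ 2 * X ^ 4 := by positivity
      linarith
  have hK1 : P.real A * ((n : ℝ) ^ 2 / 4) ≤ 1 := by
    have h5 : P.real A ≤ |C| * Real.exp (-(n : ℝ) ^ s) :=
      (H n hn).trans (mul_le_mul_of_nonneg_right (le_abs_self _) (Real.exp_pos _).le)
    have h6 : (n : ℝ) ^ 2 / 4 ≤ (2 * (n : ℝ) + 1) ^ 2 := by nlinarith
    calc P.real A * ((n : ℝ) ^ 2 / 4) ≤ (|C| * Real.exp (-(n : ℝ) ^ s)) * (2 * (n : ℝ) + 1) ^ 2 :=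
          mul_le_mul h5 h6 (by positivity) (by positivity)
      _ = (2 * (n : ℝ) + 1) ^ 2 * Real.exp (-(n : ℝ) ^ s) * |C| := by ring
      _ ≤ 1 := hn1.le
  have hadd : Integrable (fun a => 1 / (n : ℝ) ^ 2 *
      (Real.log (Zd β h (fld ω a) n) - Lm P ω β h n) ^ 4 +
      A.indicator (fun _ => (n : ℝ) ^ 2 / 4) a) P := (h1.const_mul _).add hi
  unfold Vr
  calc ∫ a, (Real.log (Zd β h (fld ω a) n) - Lm P ω β h n) ^ 2 ∂P ≤
      ∫ a, ((n : ℝ) ^ (2 * c) +
      (1 / (n : ℝ) ^ 2 * (Real.log (Zd β h (fld ω a) n) - Lm P ω β h n) ^ 4 +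
      A.indicator (fun _ => (n : ℝ) ^ 2 / 4) a)) ∂P :=
        integral_mono h3 ((integrable_const _).add hadd) hpt
    _ = (n : ℝ) ^ (2 * c) + (1 / (n : ℝ) ^ 2 *
        ∫ a, (Real.log (Zd β h (fld ω a) n) - Lm P ω β h n) ^ 4 ∂P +
        P.real A * ((n : ℝ) ^ 2 / 4)) := by
        rw [integral_add (integrable_const _) hadd,
          integral_add (h1.const_mul _) hi, integral_const_mul, integral_indicator_const _ mA]
        simp
    _ ≤ (n : ℝ) ^ (2 * c) + (K + 1) := by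
        have h7 := mul_le_mul_of_nonneg_left h2 (by positivity : (0 : ℝ) ≤ 1 / (n : ℝ) ^ 2)
        have h8 : 1 / (n : ℝ) ^ 2 * (K * (n : ℝ) ^ 2) = K := by field_simp
        linarith

end Pool.Agent.K1H38.DP
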