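import Pool.Agent.K1H38.DP.Tube
import Pool.Agent.K1H38.DP.Mom
import Pool.Agent.K1H38.DP.AntiC

/-!
Exponents of the polymer with drift and the main statements.
-/

open MeasureTheory ProbabilityTheory TH967.DP Filter
open scoped Topology
open Classical

set_option linter.unusedSectionVars false

namespace Pool.Agent.K1H38.DP

variable {d : ℕ} {Ω : Type*} [MeasurableSpace Ω] {P : Measure Ω} [IsProbabilityMeasure P]
  {ω : ℕ → (Fin d → ℤ) → Ω → ℝ}

/-- The partition function with drift, `Z_n^h = E(exp(h · S_n + β ∑_{i≤n} η(i, S_i)))` for simple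
random walk `S`; `h = 0` is the `Z_n` of the problem. -/
noncomputable def Zn (β : ℝ) (h : Fin d → ℝ) (η : ℕ → (Fin d → ℤ) → ℝ) (n : ℕ) : ℝ :=
  (∑ w : Fin n → Step d, wgt β h η w) / (2 * (d : ℝ)) ^ n

/-- The wandering exponent of the polymer with drift `h` around the line of slope `v`:
`inf{a > 0 : 𝔼(liminf_n P_n^h(max_{0≤i≤n} ‖S_i - i v‖ ≤ n^a)) = 1}`. -/
noncomputable def wanderingExp (P : Measure Ω) (ω : ℕ → (Fin d → ℤ) → Ω → ℝ) (β : ℝ)
    (h v : Fin d → ℝ) : ℝ :=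
  sInf {a : ℝ | 0 < a ∧ ∫⁻ x, liminf (fun n : ℕ => ENNReal.ofReal (frProb β h
    (fun i y => ω i y x) (tube n v ((n : ℝ) ^ a)))) atTop ∂P = 1}

/-- The fluctuation exponent of the polymer with drift `h`:
`sup{c > 0 : Var(log Z_n^h) ≥ n^{2c} for all large n}`. -/
noncomputable def flucExp (P : Measure Ω) (ω : ℕ → (Fin d → ℤ) → Ω → ℝ) (β : ℝ)
    (h : Fin d → ℝ) : ℝ :=
  sSup {c : ℝ | 0 < c ∧ ∀ᶠ n : ℕ in atTop, (n : ℝ) ^ (2 * c) ≤
    variance (fun x => Real.log (Zn β h (fun i y => ω i y x) n)) P}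

/-- The upper fluctuation exponent of the polymer with drift `h`: the infimum of the `c > 0` such
that, for some `r, s > 0` and `C`, `P(|log Z_n^g - 𝔼 log Z_n^g| > n^c) ≤ C exp(-n^s)` for all
`n ≥ 1` and all `g` with `|g_k - h_k| ≤ r` for all `k`. -/
noncomputable def tailExp (P : Measure Ω) (ω : ℕ → (Fin d → ℤ) → Ω → ℝ) (β : ℝ)
    (h : Fin d → ℝ) : ℝ :=
  sInf {c : ℝ | 0 < c ∧ ∃ r s C : ℝ, 0 < r ∧ 0 < s ∧ ∀ n : ℕ, 1 ≤ n →
    ∀ g : Fin d → ℝ, (∀ k, |g k - h k| ≤ r) →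
      P.real {x | (n : ℝ) ^ c < |Real.log (Zn β g (fun i y => ω i y x) n) -
        ∫ x', Real.log (Zn β g (fun i y => ω i y x') n) ∂P|} ≤ C * Real.exp (-(n : ℝ) ^ s)}

lemma log_Zn [NeZero d] (β : ℝ) (h : Fin d → ℝ) (η : ℕ → (Fin d → ℤ) → ℝ) (n : ℕ) :
    Real.log (Zn β h η n) = Real.log (Zd β h η n) - Real.log ((2 * (d : ℝ)) ^ n) := by
  have hd : (0 : ℝ) < d := by exact_mod_cast Nat.pos_of_ne_zero (NeZero.ne d)
  unfold Zn
  exact Real.log_div (Zd_pos β h η n).ne' (by positivity)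

lemma mean_Zn [NeZero d] (he : IsEnv P ω) (hexp : HasExp P ω) (β : ℝ) (h : Fin d → ℝ) (n : ℕ) :
    ∫ x', Real.log (Zn β h (fun i y => ω i y x') n) ∂P =
      Lm P ω β h n - Real.log ((2 * (d : ℝ)) ^ n) := by
  have hi := integrable_log_Zd he hexp β h n
  unfold fld at hi
  simp_rw [log_Zn]
  rw [integral_sub hi (integrable_const _)]
  simp only [Lm, integral_const, probReal_univ, one_smul]
  rfl

lemma centered [NeZero d] (he : IsEnv P ω) (hexp : HasExp P ω) (β : ℝ) (h : Fin d → ℝ) (n : ℕ)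
    (x : Ω) : Real.log (Zn β h (fun i y => ω i y x) n) -
      ∫ x', Real.log (Zn β h (fun i y => ω i y x') n) ∂P =
      Real.log (Zd β h (fld ω x) n) - Lm P ω β h n := by
  rw [mean_Zn he hexp, log_Zn]
  unfold fld
  ring

lemma variance_eq [NeZero d] (he : IsEnv P ω) (hexp : HasExp P ω) (β : ℝ) (h : Fin d → ℝ)
    (n : ℕ) : variance (fun x => Real.log (Zn β h (fun i y => ω i y x) n)) P = Vr P ω β h n := by
  rw [variance_eq_integral]
  · unfold Vr
    apply integral_congr_ae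
    exact Eventually.of_forall fun x => by
      simp only
      rw [centered he hexp]
  · simp_rw [log_Zn]
    exact ((Real.measurable_log.comp ((measurable_Zd β h n).comp
      (measurable_fld he))).sub_const _).aemeasurable

lemma dev_eq [NeZero d] (he : IsEnv P ω) (hexp : HasExp P ω) (β : ℝ) (g : Fin d → ℝ) (n : ℕ)
    (c : ℝ) : {x | (n : ℝ) ^ c < |Real.log (Zn β g (fun i y => ω i y x) n) -
        ∫ x', Real.log (Zn β g (fun i y => ω i y x') n) ∂P|} = dev P ω β g n ((n : ℝ) ^ c) := by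
  unfold dev
  ext x
  simp only [Set.mem_ofPred_eq]
  rw [centered he hexp]

/-- the set of the upper exponent -/
lemma mem_tail [NeZero d] (he : IsEnv P ω) (hexp : HasExp P ω) (β : ℝ) (h : Fin d → ℝ) {c : ℝ}
    (hc : 1 / 2 < c) (hc1 : c ≤ 1) : 0 < c ∧ ∃ r s C : ℝ, 0 < r ∧ 0 < s ∧ ∀ n : ℕ, 1 ≤ n →
    ∀ g : Fin d → ℝ, (∀ k, |g k - h k| ≤ r) →
      P.real {x | (n : ℝ) ^ c < |Real.log (Zn β g (fun i y => ω i y x) n) -
        ∫ x', Real.log (Zn β g (fun i y => ω i y x') n) ∂P|} ≤ C * Real.exp (-(n : ℝ) ^ s) := by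
  obtain ⟨s, C, hs, -, ht⟩ := tail_half he hexp β hc hc1
  refine ⟨by linarith, 1, s, C, one_pos, hs, fun n hn g _ => ?_⟩
  rw [dev_eq he hexp]
  exact ht n hn g

lemma tailExp_nonneg (β : ℝ) (h : Fin d → ℝ) : 0 ≤ tailExp P ω β h :=
  Real.sInf_nonneg fun _ hc => hc.1.le

lemma tailExp_le_half [NeZero d] (he : IsEnv P ω) (hexp : HasExp P ω) (β : ℝ) (h : Fin d → ℝ) :
    tailExp P ω β h ≤ 1 / 2 := by
  apply le_of_forall_gt_imp_ge_of_dense
  intro c hc
  have hb : BddBelow {c : ℝ | 0 < c ∧ ∃ r s C : ℝ, 0 < r ∧ 0 < s ∧ ∀ n : ℕ, 1 ≤ n →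
    ∀ g : Fin d → ℝ, (∀ k, |g k - h k| ≤ r) →
      P.real {x | (n : ℝ) ^ c < |Real.log (Zn β g (fun i y => ω i y x) n) -
        ∫ x', Real.log (Zn β g (fun i y => ω i y x') n) ∂P|} ≤ C * Real.exp (-(n : ℝ) ^ s)} :=
    ⟨0, fun _ hc => hc.1.le⟩
  have h1 := csInf_le hb (mem_tail he hexp β h (c := min c 1) (lt_min hc (by norm_num))
    (min_le_right _ _))
  exact h1.trans (min_le_left _ _)

/-- points of the set below a given number -/
lemma exists_tail [NeZero d] (he : IsEnv P ω) (hexp : HasExp P ω) (β : ℝ) (h : Fin d → ℝ) {b : ℝ}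
    (hb : tailExp P ω β h < b) : ∃ c r s C : ℝ, c < b ∧ 0 < c ∧ 0 < r ∧ 0 < s ∧
      ∀ n : ℕ, 1 ≤ n → ∀ g : Fin d → ℝ, (∀ k, |g k - h k| ≤ r) →
      P.real (dev P ω β g n ((n : ℝ) ^ c)) ≤ C * Real.exp (-(n : ℝ) ^ s) := by
  obtain ⟨c, ⟨hc0, r, s, C, hr, hs, H⟩, hcb⟩ := exists_lt_of_csInf_lt
    ⟨1, mem_tail he hexp β h (by norm_num) le_rfl⟩ hb
  refine ⟨c, r, s, C, hcb, hc0, hr, hs, fun n hn g hg => ?_⟩
  rw [← dev_eq he hexp]
  exact H n hn g hg

/-- comparison of powers -/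
lemma pow_cmp {e f K : ℝ} (hf : 0 < f) (hfe : f < e) :
    ∀ᶠ n : ℕ in atTop, (n : ℝ) ^ f + K < (n : ℝ) ^ e := by
  have h1 : Tendsto (fun n : ℕ => (n : ℝ) ^ f) atTop atTop :=
    (tendsto_rpow_atTop hf).comp tendsto_natCast_atTop_atTop
  have h2 : Tendsto (fun n : ℕ => (n : ℝ) ^ (e - f)) atTop atTop :=
    (tendsto_rpow_atTop (by linarith)).comp tendsto_natCast_atTop_atTop
  filter_upwards [h1.eventually_gt_atTop K, h2.eventually_ge_atTop 2, eventually_ge_atTop 1] with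
    n hn1 hn2 hn3
  have hnR : (1 : ℝ) ≤ n := by exact_mod_cast hn3
  have e1 : (n : ℝ) ^ e = (n : ℝ) ^ (e - f) * (n : ℝ) ^ f := by
    rw [← Real.rpow_add (by linarith)]; congr 1; ring
  have h3 : 0 < (n : ℝ) ^ f := by positivity
  rw [e1]
  nlinarith

lemma flucExp_bdd [NeZero d] (he : IsEnv P ω) (hexp : HasExp P ω) (β : ℝ) (h : Fin d → ℝ) :
    BddAbove {c : ℝ | 0 < c ∧ ∀ᶠ n : ℕ in atTop, (n : ℝ) ^ (2 * c) ≤
      variance (fun x => Real.log (Zn β h (fun i y => ω i y x) n)) P} := by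
  obtain ⟨K, hK, hV⟩ := Vr_linear he hexp β
  refine ⟨1, fun c hc => ?_⟩
  obtain ⟨hc0, hc⟩ := hc
  by_contra hcon
  push Not at hcon
  have h1 := pow_cmp (e := 2 * c) (f := 2) (K := 0) (by norm_num) (by linarith)
  have h2 : ∀ᶠ n : ℕ in atTop, K ≤ n := tendsto_natCast_atTop_atTop.eventually_ge_atTop K
  obtain ⟨n, ⟨⟨h3, h4⟩, h5⟩, h6⟩ := (((hc.and h1).and (eventually_ge_atTop 1)).and h2).exists
  rw [variance_eq he hexp] at h3
  have h7 := hV h n h5
  have h8 : (n : ℝ) ^ (2 : ℝ) = n * n := by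
    rw [Real.rpow_two]; ring
  rw [h8] at h4
  have h9 : K * n ≤ n * n := mul_le_mul_of_nonneg_right h6 (Nat.cast_nonneg n)
  linarith

lemma flucExp_le_tailExp [NeZero d] (he : IsEnv P ω) (hexp : HasExp P ω) (β : ℝ)
    (h : Fin d → ℝ) : flucExp P ω β h ≤ tailExp P ω β h := by
  by_contra hcon
  push Not at hcon
  obtain ⟨b, hb1, hb2⟩ := exists_between hcon
  obtain ⟨c, r, s, C, hcb, hc0, hr, hs, H⟩ := exists_tail he hexp β h hb1
  obtain ⟨K, hK⟩ := Vr_tail he hexp β h hs (fun n hn => H n hn h (fun k => by simp [hr.le]))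
  have hne : {c : ℝ | 0 < c ∧ ∀ᶠ n : ℕ in atTop, (n : ℝ) ^ (2 * c) ≤
      variance (fun x => Real.log (Zn β h (fun i y => ω i y x) n)) P}.Nonempty := by
    by_contra hem
    rw [Set.not_nonempty_iff_eq_empty] at hem
    unfold flucExp at hb2
    rw [hem, Real.sSup_empty] at hb2
    linarith
  obtain ⟨e, ⟨he0, he1⟩, hbe⟩ := exists_lt_of_lt_csSup hne hb2
  have h1 := pow_cmp (e := 2 * e) (f := 2 * c) (K := K) (by linarith) (by linarith)
  obtain ⟨n, ⟨h2, h3⟩, h4⟩ := ((he1.and hK).and h1).exists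
  rw [variance_eq he hexp] at h2
  linarith

lemma tube_mono {n : ℕ} {v : Fin d → ℝ} {R R' : ℝ} (h : R ≤ R') : tube n v R ⊆ tube n v R' :=
  fun _ hw i hi => (hw i hi).trans h

/-- slopes exist in almost every direction -/
lemma ae_slopes [NeZero d] {p : (Fin d → ℝ) → ℝ} (hc : ConvexOn ℝ Set.univ p)
    (hcont : Continuous p) : ∀ᵐ h : Fin d → ℝ, ∃ v : Fin d → ℝ, ∃ Cq r' : ℝ, 0 < r' ∧
      ∀ j, ∀ t : ℝ, |t| ≤ r' →
        p (h + t • (Pi.single j (1 : ℝ) : Fin d → ℝ)) ≤ p h + t * v j + Cq * t ^ 2 := by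
  have h1 : ∀ᵐ h : Fin d → ℝ, ∀ j : Fin d, SD p (Pi.single j (1 : ℝ) : Fin d → ℝ) h := by
    rw [ae_all_iff]
    intro j
    exact ae_sd hcont hc _
  filter_upwards [h1] with h hh
  choose v C r hr hb using fun j => sd_slope hc (hh j)
  have hne : (Finset.univ : Finset (Fin d)).Nonempty := Finset.univ_nonempty
  refine ⟨v, Finset.univ.sup' hne C, Finset.univ.inf' hne r, ?_, fun j t ht => ?_⟩
  · rw [Finset.lt_inf'_iff]
    exact fun j _ => hr j
  · have h2 : |t| ≤ r j := ht.trans (Finset.inf'_le r (Finset.mem_univ j))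
    have h3 : C j ≤ Finset.univ.sup' hne C := Finset.le_sup' C (Finset.mem_univ j)
    have h4 := hb j t h2
    have h5 : C j * t ^ 2 ≤ Finset.univ.sup' hne C * t ^ 2 :=
      mul_le_mul_of_nonneg_right h3 (sq_nonneg t)
    linarith

/-- summable probabilities and the almost sure statement -/
lemma ae_of_summable {B : ℕ → Set Ω} (hB : Summable (fun N => P.real (B N))) :
    ∀ᵐ x ∂P, ∀ᶠ N in atTop, x ∉ B N := by
  apply ae_eventually_notMem
  have h1 : ∀ N, P (B N) = ENNReal.ofReal (P.real (B N)) := fun N => by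
    rw [measureReal_def, ENNReal.ofReal_toReal (measure_ne_top _ _)]
  simp_rw [h1]
  exact hB.tsum_ofReal_ne_top

/-- confinement with explicit exceptional sets -/
lemma tube_of_slopes [NeZero d] (he : IsEnv P ω) (hexp : HasExp P ω) (β : ℝ)
    {p : (Fin d → ℝ) → ℝ}
    (hp : ∀ h, Tendsto (fun k : ℕ => Lm P ω β h (2 ^ k) / 2 ^ k) atTop (𝓝 (p h)))
    {h v : Fin d → ℝ} {Cq r' : ℝ} (hr' : 0 < r')
    (hv : ∀ j, ∀ t : ℝ, |t| ≤ r' →
      p (h + t • (Pi.single j (1 : ℝ) : Fin d → ℝ)) ≤ p h + t * v j + Cq * t ^ 2)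
    {a : ℝ} (ha : (1 + tailExp P ω β h) / 2 < a) :
    ∃ κ : ℝ, 0 < κ ∧ ∃ B : ℕ → Set Ω, Summable (fun N => P.real (B N)) ∧
      ∀ᶠ N : ℕ in atTop, ∀ x ∉ B N,
        1 - Real.exp (-(N : ℝ) ^ κ) ≤ frProb β h (fun i y => ω i y x) (tube N v ((N : ℝ) ^ a)) := by
  have ht := tailExp_le_half he hexp β h
  set b := min (2 * a - 1) (4 / 5) with hb
  have hb1 : tailExp P ω β h < b := lt_min (by linarith) (by linarith)
  obtain ⟨c, r, s, C, hcb, hc0, hr, hs, H⟩ := exists_tail he hexp β h hb1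
  have hb2 : b ≤ 2 * a - 1 := min_le_left _ _
  have hb3 : b ≤ 4 / 5 := min_le_right _ _
  set a' := min a (9 / 10) with ha'
  have ha1 : 1 + c < 2 * a' := by
    rcases min_choice a (9 / 10) with h1 | h1 <;> rw [ha', h1] <;> linarith
  have ha2 : a' < 1 := lt_of_le_of_lt (min_le_right _ _) (by norm_num)
  obtain ⟨B, hB, hev⟩ := tube_good he hexp β hc0 (by linarith) hs hr H hp hr' hv ha1 ha2
  refine ⟨c, hc0, B, hB, ?_⟩
  filter_upwards [hev, eventually_ge_atTop 1] with N hN hN1 x hx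
  have hNR : (1 : ℝ) ≤ N := by exact_mod_cast hN1
  refine (hN x hx).trans (frProb_mono β h _ (tube_mono ?_))
  exact Real.rpow_le_rpow_of_exponent_le hNR (min_le_left _ _)

lemma wandering_le [NeZero d] {β : ℝ} {h v : Fin d → ℝ} {a : ℝ} (ha : 0 < a) {κ : ℝ}
    (hκ : 0 < κ)
    (H : ∀ᵐ x ∂P, ∀ᶠ N : ℕ in atTop,
      1 - Real.exp (-(N : ℝ) ^ κ) ≤ frProb β h (fun i y => ω i y x) (tube N v ((N : ℝ) ^ a))) :
    wanderingExp P ω β h v ≤ a := by
  apply csInf_le ⟨0, fun _ hc => hc.1.le⟩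
  refine ⟨ha, ?_⟩
  have h0 : Tendsto (fun N : ℕ => 1 - Real.exp (-(N : ℝ) ^ κ)) atTop (𝓝 1) := by
    have h1 : Tendsto (fun N : ℕ => (N : ℝ) ^ κ) atTop atTop :=
      (tendsto_rpow_atTop hκ).comp tendsto_natCast_atTop_atTop
    have h2 := Real.tendsto_exp_neg_atTop_nhds_zero.comp h1
    have h3 := h2.const_sub (1 : ℝ)
    rw [sub_zero] at h3
    exact h3
  have hlim : ∀ᵐ x ∂P, liminf (fun n : ℕ => ENNReal.ofReal (frProb β h
      (fun i y => ω i y x) (tube n v ((n : ℝ) ^ a)))) atTop = 1 := by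
    filter_upwards [H] with x hx
    apply Tendsto.liminf_eq
    rw [← ENNReal.ofReal_one]
    apply ENNReal.tendsto_ofReal
    refine tendsto_of_tendsto_of_tendsto_of_le_of_le' h0 tendsto_const_nhds hx
      (Eventually.of_forall fun n => ?_)
    rw [frProb_tube, div_le_one (Zd_pos β h _ n)]
    exact Zt_le β h _ n v _
  rw [lintegral_congr_ae hlim]
  simp

/-- anti-concentration from confinement, in dimension one -/
lemma anti_of_tube (he : IsEnv P ω) (hexp : HasExp P ω) (hd : d = 1)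
    (hnc : ¬ ∃ c : ℝ, ∀ᵐ x ∂P, ω 1 0 x = c) {β : ℝ} (hβ : 0 < β) {h v : Fin d → ℝ} {a κ : ℝ}
    (hκ : 0 < κ) {B : ℕ → Set Ω} (hB : Summable (fun N => P.real (B N)))
    (H : ∀ᶠ N : ℕ in atTop, ∀ x ∉ B N,
        1 - Real.exp (-(N : ℝ) ^ κ) ≤ frProb β h (fun i y => ω i y x) (tube N v ((N : ℝ) ^ a)))
    {b : ℝ} (ha0 : 0 ≤ a) (hb0 : 0 ≤ b) (hb : b < (1 - a) / 2) {ε : ℝ} (hε : 0 < ε) :
    ∀ᶠ N : ℕ in atTop, ∀ y : ℝ,
      P.real {x | |Real.log (Zn β h (fun i z => ω i z x) N) - y| ≤ (N : ℝ) ^ b} ≤ ε := by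
  have : NeZero d := ⟨by omega⟩
  obtain ⟨a₀, b₀, hab, hpp, hpm⟩ := K1H53.SD.exists_gap (he.meas 1 0) hexp hnc
  set Kc := 1 / (P.map (ω 1 0)).real (Set.Ici b₀) + 1 / (P.map (ω 1 0)).real (Set.Iic a₀) with hKc
  set q := 1 - Real.exp (-(β * (b₀ - a₀))) with hq
  have hqpos : 0 < q := by
    rw [hq]
    have : Real.exp (-(β * (b₀ - a₀))) < 1 := by
      rw [Real.exp_lt_one_iff]
      have := mul_pos hβ (sub_pos.2 hab)
      linarith
    linarith
  have hKpos : 0 < Kc := by positivity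
  have hB0 := hB.tendsto_atTop_zero
  have h1 : Tendsto (fun N : ℕ => (N : ℝ) ^ κ) atTop atTop :=
    (tendsto_rpow_atTop hκ).comp tendsto_natCast_atTop_atTop
  have h2 := (Real.tendsto_exp_neg_atTop_nhds_zero.comp h1).eventually_lt_const
    (show (0 : ℝ) < 1 / 2 by norm_num)
  have h3 : Tendsto (fun N : ℕ => 5 * Real.sqrt (3 * Kc) / q * (N : ℝ) ^ (-((1 - a) / 2 - b)))
      atTop (𝓝 0) := by
    have h4 : Tendsto (fun N : ℕ => (N : ℝ) ^ (-((1 - a) / 2 - b))) atTop (𝓝 0) :=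
      (tendsto_rpow_neg_atTop (by linarith)).comp tendsto_natCast_atTop_atTop
    have h5 := h4.const_mul (5 * Real.sqrt (3 * Kc) / q)
    rwa [mul_zero] at h5
  filter_upwards [H, h2, hB0.eventually_lt_const (show (0 : ℝ) < ε / 2 by linarith),
    h3.eventually_lt_const (show (0 : ℝ) < ε / 2 by linarith), eventually_ge_atTop 1] with
    N hN1 hN2 hN3 hN4 hN5 y
  have hNR : (1 : ℝ) ≤ N := by exact_mod_cast hN5
  have hN0 : (0 : ℝ) < N := by linarith
  have hR0 : 0 ≤ (N : ℝ) ^ a := by positivity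
  have hac := anti_free he hab hpp hpm hβ h hN5 v hR0 (y + Real.log ((2 * (d : ℝ)) ^ N))
    (L := (N : ℝ) ^ b) (by positivity)
  rw [← hKc, ← hq] at hac
  have e1 : {x | |Real.log (Zn β h (fun i z => ω i z x) N) - y| ≤ (N : ℝ) ^ b} =
      {x | |Real.log (Zd β h (fld ω x) N) - (y + Real.log ((2 * (d : ℝ)) ^ N))| ≤
        (N : ℝ) ^ b} := by
    ext x
    simp only [Set.mem_ofPred_eq]
    rw [log_Zn]
    have : Real.log (Zd β h (fun i z => ω i z x) N) - Real.log ((2 * (d : ℝ)) ^ N) - y =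
      Real.log (Zd β h (fld ω x) N) - (y + Real.log ((2 * (d : ℝ)) ^ N)) := by
      unfold fld; ring
    rw [this]
  rw [e1]
  refine hac.trans ?_
  have h6 : P.real {x | frProb β h (fld ω x) (tube N v ((N : ℝ) ^ a)) < 1 / 2} ≤ ε / 2 := by
    refine le_trans (measureReal_mono ?_ (measure_ne_top _ _)) hN3.le
    intro x hx
    by_contra hcon
    have h7 := hN1 x hcon
    simp only [Set.mem_ofPred_eq] at hx
    unfold fld at hx
    simp only [Function.comp_apply] at hN2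
    linarith
  have h8 : (2 * (N : ℝ) ^ b + 3) * Real.sqrt (N * (2 * (N : ℝ) ^ a + 1) ^ d * Kc) / (N * q) ≤
      5 * Real.sqrt (3 * Kc) / q * (N : ℝ) ^ (-((1 - a) / 2 - b)) := by
    subst hd
    rw [pow_one]
    have hb1 : 1 ≤ (N : ℝ) ^ b := Real.one_le_rpow hNR hb0
    have ha1 : 1 ≤ (N : ℝ) ^ a := Real.one_le_rpow hNR ha0
    have h9 : Real.sqrt (N * (2 * (N : ℝ) ^ a + 1) * Kc) ≤
        (N : ℝ) ^ ((1 + a) / 2) * Real.sqrt (3 * Kc) := by
      have h10 : (N : ℝ) * (2 * (N : ℝ) ^ a + 1) * Kc ≤ ((N : ℝ) ^ ((1 + a) / 2)) ^ 2 * (3 * Kc) := by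
        have e2 : ((N : ℝ) ^ ((1 + a) / 2)) ^ 2 = N * (N : ℝ) ^ a := by
          rw [← Real.rpow_natCast, ← Real.rpow_mul hN0.le, ← Real.rpow_one_add' hN0.le]
          · congr 1; push_cast; ring
          · linarith
        rw [e2]
        have : (N : ℝ) * (2 * (N : ℝ) ^ a + 1) ≤ N * (3 * (N : ℝ) ^ a) :=
          mul_le_mul_of_nonneg_left (by linarith) hN0.le
        nlinarith
      calc Real.sqrt (N * (2 * (N : ℝ) ^ a + 1) * Kc) ≤
          Real.sqrt (((N : ℝ) ^ ((1 + a) / 2)) ^ 2 * (3 * Kc)) := Real.sqrt_le_sqrt h10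
        _ = _ := by
            rw [Real.sqrt_mul (sq_nonneg _), Real.sqrt_sq (by positivity)]
    have h11 : (2 * (N : ℝ) ^ b + 3) ≤ 5 * (N : ℝ) ^ b := by linarith
    have e3 : (N : ℝ) ^ (-((1 - a) / 2 - b)) = (N : ℝ) ^ b * (N : ℝ) ^ ((1 + a) / 2) / N := by
      rw [← Real.rpow_add hN0, ← Real.rpow_sub_one hN0.ne']
      congr 1; ring
    rw [e3]
    calc (2 * (N : ℝ) ^ b + 3) * Real.sqrt (N * (2 * (N : ℝ) ^ a + 1) * Kc) / (N * q) ≤
        (5 * (N : ℝ) ^ b) * ((N : ℝ) ^ ((1 + a) / 2) * Real.sqrt (3 * Kc)) / (N * q) := by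
          apply div_le_div_of_nonneg_right _ (by positivity)
          exact mul_le_mul h11 h9 (Real.sqrt_nonneg _) (by positivity)
      _ = _ := by field_simp
  linarith

/-- the fluctuation exponent is bounded from below by anti-concentration -/
lemma flucExp_ge [NeZero d] (he : IsEnv P ω) (hexp : HasExp P ω) {β : ℝ} {h : Fin d → ℝ} {b : ℝ}
    (H : ∀ b' : ℝ, 0 < b' → b' < b → ∀ᶠ N : ℕ in atTop, ∀ y : ℝ,
      P.real {x | |Real.log (Zn β h (fun i z => ω i z x) N) - y| ≤ (N : ℝ) ^ b'} ≤ 1 / 2) :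
    b ≤ flucExp P ω β h := by
  apply le_of_forall_lt_imp_le_of_dense
  intro e he1
  rcases le_or_gt e 0 with h0 | h0
  · refine h0.trans ?_
    exact Real.sSup_nonneg fun _ hc => hc.1.le
  obtain ⟨b', hb1, hb2⟩ := exists_between he1
  apply le_csSup (flucExp_bdd he hexp β h)
  refine ⟨h0, ?_⟩
  have h1 := pow_cmp (e := 2 * b') (f := 2 * e) (K := 0) (by linarith) (by linarith)
  have h2 : ∀ᶠ n : ℕ in atTop, 2 ≤ (n : ℝ) ^ (2 * b' - 2 * e) :=
    ((tendsto_rpow_atTop (by linarith)).comp tendsto_natCast_atTop_atTop).eventually_ge_atTop 2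
  filter_upwards [H b' (by linarith) hb2, h2, eventually_ge_atTop 1] with N hN1 hN2 hN3
  have hNR : (1 : ℝ) ≤ N := by exact_mod_cast hN3
  have hN0 : (0 : ℝ) < N := by linarith
  rw [variance_eq he hexp]
  set A := {x | |Real.log (Zd β h (fld ω x) N) - Lm P ω β h N| ≤ (N : ℝ) ^ b'} with hA
  have mX : Measurable (fun a => Real.log (Zd β h (fld ω a) N) - Lm P ω β h N) :=
    (Real.measurable_log.comp ((measurable_Zd β h N).comp (measurable_fld he))).sub_const _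
  have mA : MeasurableSet A := measurableSet_le mX.abs measurable_const
  have h3 := hN1 (∫ x', Real.log (Zn β h (fun i y => ω i y x') N) ∂P)
  have e1 : {x | |Real.log (Zn β h (fun i z => ω i z x) N) -
      ∫ x', Real.log (Zn β h (fun i y => ω i y x') N) ∂P| ≤ (N : ℝ) ^ b'} = A := by
    ext x
    simp only [Set.mem_ofPred_eq, hA]
    rw [centered he hexp]
  rw [e1] at h3
  have h4 : 1 / 2 ≤ P.real Aᶜ := by
    rw [probReal_compl_eq_one_sub mA]
    linarith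
  have h5 : P.real Aᶜ * (N : ℝ) ^ (2 * b') ≤ Vr P ω β h N := by
    unfold Vr
    have hi : Integrable (Aᶜ.indicator (fun _ => (N : ℝ) ^ (2 * b'))) P :=
      (integrable_const _).indicator mA.compl
    calc P.real Aᶜ * (N : ℝ) ^ (2 * b') = ∫ x, Aᶜ.indicator (fun _ => (N : ℝ) ^ (2 * b')) x ∂P := by
          rw [integral_indicator_const _ mA.compl, smul_eq_mul]
      _ ≤ _ := by
          apply integral_mono hi (integrable_sq he hexp β h hN3)
          intro x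
          simp only
          by_cases hx : x ∈ Aᶜ
          · rw [Set.indicator_of_mem hx]
            simp only [hA, Set.mem_compl_iff, Set.mem_ofPred_eq, not_le] at hx
            have e2 : (N : ℝ) ^ (2 * b') = ((N : ℝ) ^ b') ^ 2 := by
              rw [← Real.rpow_natCast, ← Real.rpow_mul hN0.le]
              congr 1; push_cast; ring
            rw [e2, ← sq_abs (Real.log (Zd β h (fld ω x) N) - Lm P ω β h N)]
            exact pow_le_pow_left₀ (by positivity) hx.le 2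
          · rw [Set.indicator_of_notMem hx]
            positivity
  have e3 : (N : ℝ) ^ (2 * b') = (N : ℝ) ^ (2 * b' - 2 * e) * (N : ℝ) ^ (2 * e) := by
    rw [← Real.rpow_add hN0]; congr 1; ring
  have h6 : 0 < (N : ℝ) ^ (2 * e) := by positivity
  have h7 : (N : ℝ) ^ (2 * e) ≤ P.real Aᶜ * (N : ℝ) ^ (2 * b') := by
    rw [e3]
    calc (N : ℝ) ^ (2 * e) = 1 / 2 * (2 * (N : ℝ) ^ (2 * e)) := by ring
      _ ≤ P.real Aᶜ * ((N : ℝ) ^ (2 * b' - 2 * e) * (N : ℝ) ^ (2 * e)) := by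
          apply mul_le_mul h4 _ (by positivity) (by positivity)
          exact mul_le_mul_of_nonneg_right hN2 h6.le
  linarith

end Pool.Agent.K1H38.DP
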