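import Pool.Agent.K1H38.DP.Seq1
import Pool.Agent.K1H38.DP.Main
import Pool.Agent.K1H53.SF.FDefs
import Pool.Agent.K1H53.SD.Env

/-!
The results for almost every drift in dimension one, for walks with steps in `Bool`.
-/

open MeasureTheory ProbabilityTheory Filter
open scoped Topology
open Classical

set_option linter.unusedSectionVars false

namespace Pool.Agent.K1H38.DP

/-- the environment on `Fin 1 → ℤ` -/
def up (η : ℕ → ℤ → ℝ) : ℕ → (Fin 1 → ℤ) → ℝ := fun i x => η i (x 0)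

/-- walks -/
def wu {n : ℕ} : (Fin n → Bool) ≃ (Fin n → TH967.DP.Step 1) where
  toFun w := fun k => (0, w k)
  invFun w := fun k => (w k).2
  left_inv w := rfl
  right_inv w := by
    funext k
    exact Prod.ext (Subsingleton.elim _ _) rfl

lemma pos_wu {n : ℕ} (w : Fin n → Bool) (i : ℕ) (k : Fin 1) :
    TH967.DP.pos (wu w) i k = K1H53.SD.pos w i := by
  unfold TH967.DP.pos K1H53.SD.pos
  rw [Finset.sum_apply]
  apply Finset.sum_congr rfl
  intro j _
  by_cases hj : j.val < i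
  · rw [if_pos hj, if_pos hj]
    unfold TH967.DP.stepVec wu
    simp only [Equiv.coe_fn_mk]
    have : k = 0 := Subsingleton.elim _ _
    subst this
    rw [Pi.single_eq_same]
  · rw [if_neg hj, if_neg hj]
    rfl

lemma energy_wu {n : ℕ} (η : ℕ → ℤ → ℝ) (w : Fin n → Bool) :
    TH967.DP.energy (up η) (wu w) = K1H53.SD.energy η w := by
  unfold TH967.DP.energy K1H53.SD.energy up
  apply Finset.sum_congr rfl
  intro i _
  rw [pos_wu]

lemma dot_wu {n : ℕ} (h : ℝ) (w : Fin n → Bool) (i : ℕ) :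
    dot (fun _ : Fin 1 => h) (TH967.DP.pos (wu w) i) = h * K1H53.SD.pos w i := by
  unfold dot
  rw [Fin.sum_univ_one, pos_wu]

lemma wgt_wu {n : ℕ} (β h : ℝ) (η : ℕ → ℤ → ℝ) (w : Fin n → Bool) :
    wgt β (fun _ : Fin 1 => h) (up η) (wu w) =
      Real.exp (h * K1H53.SD.pos w n + β * K1H53.SD.energy η w) := by
  unfold wgt
  rw [dot_wu, energy_wu]

/-- the partition function of walks with steps in `Bool` -/
noncomputable def ZB (β h : ℝ) (η : ℕ → ℤ → ℝ) (n : ℕ) : ℝ :=
  ∑ w : Fin n → Bool, Real.exp (h * K1H53.SD.pos w n + β * K1H53.SD.energy η w)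

lemma Zd_up (β h : ℝ) (η : ℕ → ℤ → ℝ) (n : ℕ) :
    Zd β (fun _ : Fin 1 => h) (up η) n = ZB β h η n := by
  unfold Zd ZB
  rw [← Equiv.sum_comp wu]
  apply Finset.sum_congr rfl
  intro w _
  rw [wgt_wu]

lemma mem_tube_wu {n : ℕ} (v R : ℝ) (w : Fin n → Bool) :
    wu w ∈ tube n (fun _ : Fin 1 => v) R ↔ w ∈ K1H53.SD.tube n v R := by
  unfold tube K1H53.SD.tube
  simp only [Set.mem_ofPred_eq, Fin.sum_univ_one, pos_wu, Real.sqrt_sq_eq_abs]

lemma frProb_up {n : ℕ} (β h : ℝ) (η : ℕ → ℤ → ℝ) (v R : ℝ) :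
    frProb β (fun _ : Fin 1 => h) (up η) (tube n (fun _ : Fin 1 => v) R) =
      K1H53.SF.frProb β h η (K1H53.SD.tube n v R) := by
  unfold frProb K1H53.SF.frProb
  rw [Zd_up]
  unfold ZB
  congr 1
  rw [← Equiv.sum_comp wu]
  apply Finset.sum_congr rfl
  intro w _
  rw [Set.indicator_apply, Set.indicator_apply, wgt_wu]
  by_cases hw : w ∈ K1H53.SD.tube n v R
  · rw [if_pos hw, if_pos ((mem_tube_wu v R w).2 hw)]
  · rw [if_neg hw, if_neg (fun h => hw ((mem_tube_wu v R w).1 h))]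

variable {Ω : Type*} [MeasurableSpace Ω] {P : Measure Ω} [IsProbabilityMeasure P]
  {ω : ℕ → ℤ → Ω → ℝ}

lemma isEnv_up (he : K1H53.SD.IsEnv P ω) :
    TH967.DP.IsEnv P (fun (i : ℕ) (x : Fin 1 → ℤ) => ω i (x 0)) := by
  refine ⟨fun i x => he.meas i _, ?_, fun i x => he.ident i _⟩
  have hg : Function.Injective (fun s : ℕ × (Fin 1 → ℤ) => ((s.1, s.2 0) : ℕ × ℤ)) := by
    rintro ⟨i, x⟩ ⟨j, y⟩ hh
    simp only [Prod.mk.injEq] at hh
    refine Prod.ext hh.1 ?_
    funext k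
    have : k = 0 := Subsingleton.elim _ _
    subst this
    exact hh.2
  exact he.indep.precomp hg

lemma hasExp_up (hexp : K1H53.SD.HasExp P ω) :
    HasExp P (fun (i : ℕ) (x : Fin 1 → ℤ) => ω i (x 0)) := hexp

/-- mean free energy -/
noncomputable def LB (P : Measure Ω) (ω : ℕ → ℤ → Ω → ℝ) (β h : ℝ) (n : ℕ) : ℝ :=
  ∫ x, Real.log (ZB β h (fun i y => ω i y x) n) ∂P

lemma fld_up (a : Ω) : fld (fun (i : ℕ) (x : Fin 1 → ℤ) => ω i (x 0)) a =
    up (fun i y => ω i y a) := rfl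

lemma Lm_up (β h : ℝ) (n : ℕ) :
    Lm P (fun (i : ℕ) (x : Fin 1 → ℤ) => ω i (x 0)) β (fun _ => h) n = LB P ω β h n := by
  unfold Lm LB
  simp_rw [fld_up, Zd_up]

/-- the limiting free energy in dimension one -/
theorem bridge_p (he : K1H53.SD.IsEnv P ω) (hexp : K1H53.SD.HasExp P ω) (β : ℝ) :
    ∃ p : ℝ → ℝ, ConvexOn ℝ Set.univ p ∧
      (∀ h, ∃ A : ℝ, 0 ≤ A ∧ ∀ n : ℕ, |LB P ω β h n - n * p h| ≤ A * (n : ℝ) ^ (3 / 4 : ℝ)) ∧
      (∀ h, Tendsto (fun n : ℕ => LB P ω β h n / n) atTop (𝓝 (p h))) ∧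
      (∀ᵐ h : ℝ, ∃ v : ℝ, HasDerivAt p v h ∧ (∃ Cq r' : ℝ, 0 < r' ∧ ∀ t : ℝ, |t| ≤ r' →
        p (h + t) ≤ p h + t * v + Cq * t ^ 2) ∧
        ∀ c s C r : ℝ, 0 < c → c < 1 → 0 < s → 0 < r →
          (∀ n : ℕ, 1 ≤ n → ∀ g : ℝ, |g - h| ≤ r →
            P.real {x | (n : ℝ) ^ c < |Real.log (ZB β g (fun i y => ω i y x) n) -
              LB P ω β g n|} ≤ C * Real.exp (-(n : ℝ) ^ s)) →
          ∀ a : ℝ, 1 + c < 2 * a → a < 1 →
            ∃ B : ℕ → Set Ω, Summable (fun N => P.real (B N)) ∧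
              ∀ᶠ N : ℕ in atTop, ∀ x ∉ B N, 1 - Real.exp (-(N : ℝ) ^ c) ≤
                K1H53.SF.frProb β h (fun i y => ω i y x)
                  (K1H53.SD.tube N v ((N : ℝ) ^ a))) := by
  have he' := isEnv_up he
  have hexp' := hasExp_up hexp
  obtain ⟨p, hp, hconv, -⟩ := exists_p he' hexp' β
  set p1 : ℝ → ℝ := fun h => p (fun _ => h) with hp1
  have hconv1 : ConvexOn ℝ Set.univ p1 := by
    refine ⟨convex_univ, fun x _ y _ a b ha hb hab => ?_⟩
    have := hconv.2 (Set.mem_univ (fun _ : Fin 1 => x)) (Set.mem_univ (fun _ : Fin 1 => y))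
      ha hb hab
    exact this
  obtain ⟨s0, C0, hs0, -, ht0⟩ := tail_half he' hexp' β (c := 3 / 4) (by norm_num) (by norm_num)
  obtain ⟨N₀, hN₀⟩ := additive he' hexp' β (c := 3 / 4) (by norm_num) hs0 (S := Set.univ)
    (fun n hn h _ => ht0 n hn h)
  have hrate : ∀ h, ∃ A : ℝ, 0 ≤ A ∧
      ∀ n : ℕ, |LB P ω β h n - n * p1 h| ≤ A * (n : ℝ) ^ (3 / 4 : ℝ) := by
    intro h
    refine seq_add1 (D := fun n => LB P ω β h n) (K := 3) (N₀ := N₀) (by norm_num) (by norm_num)
      (by norm_num) ?_ ?_ ?_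
    · intro m n hmn
      have := hN₀ (fun _ => h) (Set.mem_univ _) m n hmn
      rw [Lm_up, Lm_up, Lm_up] at this
      exact this
    · have : LB P ω β h 0 = 0 := by
        rw [← Lm_up]
        unfold Lm
        simp [Zd_zero]
      exact this
    · have := hp (fun _ => h)
      simp_rw [Lm_up] at this
      exact this
  refine ⟨p1, hconv1, hrate, ?_, ?_⟩
  · intro h
    obtain ⟨A, hA, hAn⟩ := hrate h
    have h0 : Tendsto (fun n : ℕ => A * (n : ℝ) ^ (-(1 / 4 : ℝ))) atTop (𝓝 0) := by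
      have h1 : Tendsto (fun n : ℕ => (n : ℝ) ^ (-(1 / 4 : ℝ))) atTop (𝓝 0) :=
        (tendsto_rpow_neg_atTop (by norm_num)).comp tendsto_natCast_atTop_atTop
      have h2 := h1.const_mul A
      rwa [mul_zero] at h2
    rw [tendsto_iff_dist_tendsto_zero]
    apply squeeze_zero' (Eventually.of_forall fun n => dist_nonneg) _ h0
    filter_upwards [eventually_ge_atTop 1] with n hn
    have hnR : (1 : ℝ) ≤ n := by exact_mod_cast hn
    have hn0 : (0 : ℝ) < n := by linarith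
    rw [Real.dist_eq]
    have e1 : LB P ω β h n / n - p1 h = (LB P ω β h n - n * p1 h) / n := by field_simp
    rw [e1, abs_div, abs_of_pos hn0, div_le_iff₀ hn0]
    refine (hAn n).trans (le_of_eq ?_)
    rw [mul_assoc]
    congr 1
    rw [← Real.rpow_add_one hn0.ne']
    norm_num
  · filter_upwards [ae_sd_real hconv1] with h hh
    obtain ⟨v, Cq, r', hr', hv⟩ := sd_slope hconv1 hh
    have hv' : ∀ t : ℝ, |t| ≤ r' → p1 (h + t) ≤ p1 h + t * v + Cq * t ^ 2 := by
      intro t ht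
      have := hv t ht
      rwa [smul_eq_mul, mul_one] at this
    refine ⟨v, ?_, ⟨Cq, r', hr', hv'⟩, ?_⟩
    · -- the slope is the derivative
      have hlow : ∀ t : ℝ, |t| ≤ r' → p1 h + t * v - |Cq| * t ^ 2 ≤ p1 (h + t) := by
        intro t ht
        have h1 := hv' (-t) (by rwa [abs_neg])
        have h2 := hconv1.2 (Set.mem_univ (h + t)) (Set.mem_univ (h + -t))
          (show (0 : ℝ) ≤ 1 / 2 by norm_num) (show (0 : ℝ) ≤ 1 / 2 by norm_num) (by norm_num)
        have e2 : (1 / 2 : ℝ) • (h + t) + (1 / 2 : ℝ) • (h + -t) = h := by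
          simp only [smul_eq_mul]; ring
        rw [e2] at h2
        simp only [smul_eq_mul] at h2
        have h3 : Cq * t ^ 2 ≤ |Cq| * t ^ 2 :=
          mul_le_mul_of_nonneg_right (le_abs_self _) (sq_nonneg t)
        have h4 : Cq * (-t) ^ 2 = Cq * t ^ 2 := by ring
        linarith
      rw [hasDerivAt_iff_isLittleO_nhds_zero]
      rw [Asymptotics.isLittleO_iff]
      intro ε hε
      have hδ : 0 < min r' (ε / (|Cq| + 1)) := by positivity
      filter_upwards [Metric.ball_mem_nhds (0 : ℝ) hδ] with t ht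
      rw [Metric.mem_ball, dist_zero_right, Real.norm_eq_abs, lt_min_iff] at ht
      have h1 := hv' t ht.1.le
      have h2 := hlow t ht.1.le
      have h3 : Cq * t ^ 2 ≤ |Cq| * t ^ 2 :=
        mul_le_mul_of_nonneg_right (le_abs_self _) (sq_nonneg t)
      have h4 : |Cq| * t ^ 2 ≤ ε * |t| := by
        have h5 : (|Cq| + 1) * |t| ≤ ε := by
          have := ht.2.le
          rw [le_div_iff₀ (by positivity)] at this
          linarith
        have h6 : t ^ 2 = |t| * |t| := by rw [← sq_abs]; ring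
        rw [h6]
        nlinarith [abs_nonneg t, abs_nonneg Cq]
      rw [Real.norm_eq_abs, Real.norm_eq_abs, smul_eq_mul, abs_le]
      constructor <;> linarith
    · intro c s C r hc hc1 hs hr H a ha ha1
      have H' : ∀ n : ℕ, 1 ≤ n → ∀ g : Fin 1 → ℝ, (∀ k, |g k - (fun _ : Fin 1 => h) k| ≤ r) →
          P.real (dev P (fun (i : ℕ) (x : Fin 1 → ℤ) => ω i (x 0)) β g n ((n : ℝ) ^ c)) ≤
            C * Real.exp (-(n : ℝ) ^ s) := by
        intro n hn g hg
        have e1 : g = fun _ => g 0 := by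
          funext k
          have : k = 0 := Subsingleton.elim _ _
          rw [this]
        rw [e1]
        have := H n hn (g 0) (hg 0)
        unfold dev
        simp_rw [fld_up, Zd_up, Lm_up]
        exact this
      have hv2 : ∀ j : Fin 1, ∀ t : ℝ, |t| ≤ r' →
          p ((fun _ : Fin 1 => h) + t • (Pi.single j (1 : ℝ) : Fin 1 → ℝ)) ≤
            p (fun _ : Fin 1 => h) + t * (fun _ : Fin 1 => v) j + Cq * t ^ 2 := by
        intro j t ht
        have e1 : (fun _ : Fin 1 => h) + t • (Pi.single j (1 : ℝ) : Fin 1 → ℝ) =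
            fun _ => h + t := by
          funext k
          have h1 : k = j := Subsingleton.elim _ _
          subst h1
          simp
        rw [e1]
        exact hv' t ht
      obtain ⟨B, hB, hev⟩ := tube_good he' hexp' β hc hc1 hs hr H' hp hr' hv2 ha ha1
      refine ⟨B, hB, ?_⟩
      filter_upwards [hev] with N hN x hx
      have := hN x hx
      rw [fld_up, frProb_up] at this
      exact this

end Pool.Agent.K1H38.DP
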