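import Pool.Agent.K1H38.DP.Add

/-!
The exponential Chebyshev inequality for the polymer measure and confinement to a tube.
-/

open MeasureTheory ProbabilityTheory TH967.DP Filter
open scoped Topology
open Classical

set_option linter.unusedSectionVars false

namespace Pool.Agent.K1H38.DP

variable {d : ℕ}

/-- The free polymer measure with drift `h` of the set `A` of walks: the probability of `A` under
the law on all walks `w` of `n` steps from `0` with weights proportional to
`exp(h · S_n + β ∑_{i≤n} η(i, S_i))`; `h = 0` is the polymer over simple random walk. -/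
noncomputable def frProb {n : ℕ} (β : ℝ) (h : Fin d → ℝ) (η : ℕ → (Fin d → ℤ) → ℝ)
    (A : Set (Fin n → Step d)) : ℝ :=
  (∑ w : Fin n → Step d, A.indicator (wgt β h η) w) / Zd β h η n

/-- The walks of `n` steps with `max_{0≤i≤n} ‖S_i - i v‖ ≤ R`, with the Euclidean norm. -/
def tube (n : ℕ) (v : Fin d → ℝ) (R : ℝ) : Set (Fin n → Step d) :=
  {w | ∀ i ≤ n, Real.sqrt (∑ k, ((pos w i k : ℝ) - i * v k) ^ 2) ≤ R}

lemma frProb_mono {n : ℕ} [NeZero d] (β : ℝ) (h : Fin d → ℝ) (η : ℕ → (Fin d → ℤ) → ℝ)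
    {A B : Set (Fin n → Step d)} (hAB : A ⊆ B) : frProb β h η A ≤ frProb β h η B := by
  unfold frProb
  apply div_le_div_of_nonneg_right _ (Zd_pos β h η n).le
  apply Finset.sum_le_sum
  intro w _
  exact Set.indicator_le_indicator_of_subset hAB (fun w => (wgt_pos _ _ _ w).le) w

lemma frProb_compl {n : ℕ} [NeZero d] (β : ℝ) (h : Fin d → ℝ) (η : ℕ → (Fin d → ℤ) → ℝ)
    (A : Set (Fin n → Step d)) : frProb β h η A + frProb β h η Aᶜ = 1 := by
  unfold frProb
  rw [← add_div, ← Finset.sum_add_distrib, div_eq_one_iff_eq (Zd_pos β h η n).ne']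
  unfold Zd
  apply Finset.sum_congr rfl
  intro w _
  exact Set.indicator_self_add_compl_apply A _ w

lemma frProb_union {n : ℕ} [NeZero d] (β : ℝ) (h : Fin d → ℝ) (η : ℕ → (Fin d → ℤ) → ℝ)
    {κ : Type*} (F : Finset κ) (A : κ → Set (Fin n → Step d)) {B : Set (Fin n → Step d)}
    (hB : ∀ w ∈ B, ∃ s ∈ F, w ∈ A s) : frProb β h η B ≤ ∑ s ∈ F, frProb β h η (A s) := by
  unfold frProb
  rw [← Finset.sum_div]
  apply div_le_div_of_nonneg_right _ (Zd_pos β h η n).le
  rw [Finset.sum_comm]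
  apply Finset.sum_le_sum
  intro w _
  by_cases hw : w ∈ B
  · rw [Set.indicator_of_mem hw]
    obtain ⟨s, hs, hws⟩ := hB w hw
    calc wgt β h η w = (A s).indicator (wgt β h η) w := by rw [Set.indicator_of_mem hws]
      _ ≤ _ := Finset.single_le_sum (f := fun s => (A s).indicator (wgt β h η) w)
          (fun s _ => Set.indicator_nonneg (fun w _ => (wgt_pos _ _ _ w).le) w) hs
  · rw [Set.indicator_of_notMem hw]
    exact Finset.sum_nonneg fun s _ => Set.indicator_nonneg (fun w _ => (wgt_pos _ _ _ w).le) w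

variable {Ω : Type*} [MeasurableSpace Ω] {P : Measure Ω} [IsProbabilityMeasure P]
  {ω : ℕ → (Fin d → ℤ) → Ω → ℝ}

/-- exponential Chebyshev inequality on the good event -/
lemma cher [NeZero d] {β c : ℝ} {ι : Type} {G : ι → Fin d → ℝ} {N m : ℕ} (hm : m ≤ N) {a : Ω}
    (hg : a ∉ BadEv P ω β c G N) (i0 i1 : ι) {j : Fin d} {τ : ℝ}
    (hG : G i1 = G i0 + τ • (Pi.single j (1 : ℝ) : Fin d → ℝ)) (u : ℝ) :
    frProb β (G i0) (fld ω a) {w : Fin N → Step d | u ≤ τ * pos w m j} ≤
      Real.exp (-u + (Lm P ω β (G i1) m - Lm P ω β (G i0) m) + 6 * (N : ℝ) ^ c) := by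
  obtain ⟨n, rfl⟩ := Nat.exists_eq_add_of_le hm
  set E := ((m + n : ℕ) : ℝ) ^ c with hE
  set η := fld ω a with hη
  have h1 := abs_le.1 (good_log0 hg i0 le_rfl)
  have h2 := abs_le.1 (good_log0 hg i1 (n := m) (by omega))
  have h3 : ∀ y : Fin d → ℤ, (∀ k, |y k| ≤ (m : ℤ)) →
      |Real.log (Zd β (G i0) (shift m y η) n) - Lm P ω β (G i0) n| ≤ E := fun y hy =>
    good_log hg i0 (by omega) (by omega) (fun k => (hy k).trans (by push_cast; omega))
  have h4 := abs_le.1 (add_of_good hg i0)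
  have up : ∑ w : Fin (m + n) → Step d, wgt β (G i0) η w *
      Real.exp (dot (τ • (Pi.single j (1 : ℝ) : Fin d → ℝ)) (pos w m)) ≤
      Zd β (G i1) η m * Real.exp (Lm P ω β (G i0) n + E) := by
    rw [hG]
    apply tilt_le
    intro y hy
    rw [← Real.exp_log (Zd_pos β (G i0) (shift m y η) n)]
    apply Real.exp_le_exp.2
    have := (abs_le.1 (h3 y hy)).2
    linarith
  have hZm : Zd β (G i1) η m ≤ Real.exp (Lm P ω β (G i1) m + E) := by
    rw [← Real.exp_log (Zd_pos β (G i1) η m)]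
    apply Real.exp_le_exp.2
    linarith [h2.2]
  have hZN : Real.exp (Lm P ω β (G i0) (m + n) - E) ≤ Zd β (G i0) η (m + n) := by
    rw [← Real.exp_log (Zd_pos β (G i0) η (m + n))]
    apply Real.exp_le_exp.2
    linarith [h1.1]
  have num : ∑ w : Fin (m + n) → Step d,
      {w : Fin (m + n) → Step d | u ≤ τ * pos w m j}.indicator (wgt β (G i0) η) w ≤
      Real.exp (-u) * ∑ w : Fin (m + n) → Step d, wgt β (G i0) η w *
        Real.exp (dot (τ • (Pi.single j (1 : ℝ) : Fin d → ℝ)) (pos w m)) := by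
    rw [Finset.mul_sum]
    apply Finset.sum_le_sum
    intro w _
    rw [Set.indicator_apply, dot_single]
    have hw := wgt_pos β (G i0) η w
    split_ifs with hc
    · have hc' : u ≤ τ * pos w m j := hc
      have : 1 ≤ Real.exp (-u) * Real.exp (τ * pos w m j) := by
        rw [← Real.exp_add]
        apply Real.one_le_exp
        linarith
      calc wgt β (G i0) η w = wgt β (G i0) η w * 1 := (mul_one _).symm
        _ ≤ wgt β (G i0) η w * (Real.exp (-u) * Real.exp (τ * pos w m j)) :=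
            mul_le_mul_of_nonneg_left this hw.le
        _ = _ := by ring
    · positivity
  unfold frProb
  rw [div_le_iff₀ (Zd_pos β (G i0) η (m + n))]
  calc ∑ w : Fin (m + n) → Step d,
      {w : Fin (m + n) → Step d | u ≤ τ * pos w m j}.indicator (wgt β (G i0) η) w ≤
      Real.exp (-u) * ∑ w : Fin (m + n) → Step d, wgt β (G i0) η w *
        Real.exp (dot (τ • (Pi.single j (1 : ℝ) : Fin d → ℝ)) (pos w m)) := num
    _ ≤ Real.exp (-u) * (Zd β (G i1) η m * Real.exp (Lm P ω β (G i0) n + E)) :=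
        mul_le_mul_of_nonneg_left up (Real.exp_pos _).le
    _ ≤ Real.exp (-u) * (Real.exp (Lm P ω β (G i1) m + E) *
          Real.exp (Lm P ω β (G i0) n + E)) := by
        apply mul_le_mul_of_nonneg_left _ (Real.exp_pos _).le
        exact mul_le_mul_of_nonneg_right hZm (Real.exp_pos _).le
    _ = Real.exp (-u + (Lm P ω β (G i1) m + E + (Lm P ω β (G i0) n + E))) := by
        rw [← Real.exp_add, ← Real.exp_add]
    _ ≤ Real.exp ((-u + (Lm P ω β (G i1) m - Lm P ω β (G i0) m) + 6 * E) +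
          (Lm P ω β (G i0) (m + n) - E)) := by
        apply Real.exp_le_exp.2
        linarith [h4.1]
    _ = Real.exp (-u + (Lm P ω β (G i1) m - Lm P ω β (G i0) m) + 6 * E) *
          Real.exp (Lm P ω β (G i0) (m + n) - E) := Real.exp_add _ _
    _ ≤ _ := mul_le_mul_of_nonneg_left hZN (Real.exp_pos _).le

/-- signs -/
noncomputable def sg (b : Bool) : ℝ := if b then 1 else -1

lemma exit_tube [NeZero d] {n : ℕ} {v : Fin d → ℝ} {R : ℝ} (hR : 0 ≤ R) {w : Fin n → Step d}
    (hw : w ∉ tube n v R) : ∃ i ≤ n, ∃ k : Fin d, ∃ b : Bool,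
      R / Real.sqrt d ≤ sg b * ((pos w i k : ℝ) - i * v k) := by
  by_contra hcon
  push Not at hcon
  apply hw
  intro i hi
  have hd : (0 : ℝ) < d := by exact_mod_cast Nat.pos_of_ne_zero (NeZero.ne d)
  have hsd : 0 < Real.sqrt d := Real.sqrt_pos.2 hd
  rw [Real.sqrt_le_left hR]
  have h1 : ∀ k, ((pos w i k : ℝ) - i * v k) ^ 2 ≤ R ^ 2 / d := by
    intro k
    have a1 := hcon i hi k true
    have a2 := hcon i hi k false
    simp only [sg, if_true, Bool.false_eq_true, if_false] at a1 a2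
    have h2 : |(pos w i k : ℝ) - i * v k| ≤ R / Real.sqrt d := by
      rw [abs_le]; constructor <;> linarith
    have h3 := pow_le_pow_left₀ (abs_nonneg _) h2 2
    rw [sq_abs, div_pow, Real.sq_sqrt hd.le] at h3
    exact h3
  calc ∑ k, ((pos w i k : ℝ) - i * v k) ^ 2 ≤ ∑ _k : Fin d, R ^ 2 / d :=
        Finset.sum_le_sum fun k _ => h1 k
    _ = R ^ 2 := by
        rw [Finset.sum_const, Finset.card_univ, Fintype.card_fin, nsmul_eq_mul]
        field_simp

end Pool.Agent.K1H38.DP
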