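import Pool.Agent.K1H38.DP.Poly
import Pool.Agent.TH967.DP.Env
import Pool.Agent.K1H53.CN.Conc

/-!
Directed polymers in dimension `d` with a drift: laws and concentration.
-/

open MeasureTheory ProbabilityTheory TH967.DP Filter
open scoped Topology

set_option linter.unusedSectionVars false

namespace Pool.Agent.K1H38.DP

variable {d : ℕ} {Ω : Type*} [MeasurableSpace Ω] {P : Measure Ω} [IsProbabilityMeasure P]
  {ω : ℕ → (Fin d → ℤ) → Ω → ℝ}

/-- The environment as a function of the random parameter. -/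
def fld (ω : ℕ → (Fin d → ℤ) → Ω → ℝ) (a : Ω) : ℕ → (Fin d → ℤ) → ℝ := fun i x => ω i x a

/-- The mean of the free energy. -/
noncomputable def Lm (P : Measure Ω) (ω : ℕ → (Fin d → ℤ) → Ω → ℝ) (β : ℝ) (h : Fin d → ℝ)
    (n : ℕ) : ℝ := ∫ a, Real.log (Zd β h (fld ω a) n) ∂P

/-- All exponential moments of the environment are finite. -/
def HasExp (P : Measure Ω) (ω : ℕ → (Fin d → ℤ) → Ω → ℝ) : Prop :=
  ∀ b : ℝ, Integrable (fun a => Real.exp (b * ω 1 0 a)) P

lemma log_eq_LZ (β : ℝ) (h : Fin d → ℝ) (n : ℕ) (a : Ω) :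
    Real.log (Zd β h (fld ω a) n) = K1H53.CN.LZ ω β
      (fun w : Fin n → Step d => Real.exp (dot h (pos w n))) n (fun w i => pos w (i + 1)) a := by
  unfold Zd K1H53.CN.LZ
  congr 1
  apply Finset.sum_congr rfl
  intro w _
  unfold wgt energy fld
  rw [Real.exp_add, Finset.sum_range]

lemma measurable_fld (he : IsEnv P ω) : Measurable (fld ω) := by
  rw [measurable_pi_iff]; intro i
  rw [measurable_pi_iff]; intro x
  exact he.meas i x

lemma measurable_Zd (β : ℝ) (h : Fin d → ℝ) (n : ℕ) : Measurable (fun η => Zd β h η n) := by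
  unfold Zd wgt energy
  apply Finset.measurable_sum
  intro w _
  apply Real.measurable_exp.comp
  apply Measurable.const_add
  apply Measurable.const_mul
  apply Finset.measurable_sum
  intro i _
  exact (measurable_pi_apply _).comp (measurable_pi_apply _)

lemma measurable_shift (m : ℕ) (y : Fin d → ℤ) : Measurable (shift m y) := by
  rw [measurable_pi_iff]; intro i
  rw [measurable_pi_iff]; intro x
  unfold shift
  exact (measurable_pi_apply _).comp (measurable_pi_apply _)

/-- the law of the field is invariant under shifts -/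
lemma map_shift (he : IsEnv P ω) (m : ℕ) (y : Fin d → ℤ) :
    P.map (fun a => shift m y (fld ω a)) = P.map (fld ω) := by
  have hg : Function.Injective (fun p : ℕ × (Fin d → ℤ) => ((m + p.1, y + p.2) : ℕ × (Fin d → ℤ))) := by
    rintro ⟨i, x⟩ ⟨j, z⟩ hh
    simp only [Prod.mk.injEq] at hh
    ext1
    · simp only; omega
    · exact add_left_cancel hh.2
  have h1 := he.indep.map_fun_eq_infinitePi_map (fun s => he.meas _ _)
  have h2 := (he.indep.precomp hg).map_fun_eq_infinitePi_map (fun s => he.meas _ _)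
  have e1 : ∀ s : ℕ × (Fin d → ℤ), P.map (ω s.1 s.2) = P.map (ω 1 0) := fun s =>
    (he.ident _ _).map_eq
  have h3 : P.map (fun a (s : ℕ × (Fin d → ℤ)) => ω s.1 s.2 a) =
      P.map (fun a (s : ℕ × (Fin d → ℤ)) => ω (m + s.1) (y + s.2) a) := by
    have a1 : P.map (fun a (s : ℕ × (Fin d → ℤ)) => ω s.1 s.2 a) =
        Measure.infinitePi (fun s : ℕ × (Fin d → ℤ) => P.map (ω s.1 s.2)) := h1
    have a2 : P.map (fun a (s : ℕ × (Fin d → ℤ)) => ω (m + s.1) (y + s.2) a) =
        Measure.infinitePi (fun s : ℕ × (Fin d → ℤ) => P.map (ω (m + s.1) (y + s.2))) := h2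
    rw [a1, a2]
    congr 1
    ext1 s
    rw [e1 s, e1 (m + s.1, y + s.2)]
  have mc : Measurable (fun (z : ℕ × (Fin d → ℤ) → ℝ) (i : ℕ) (x : Fin d → ℤ) => z (i, x)) := by
    rw [measurable_pi_iff]; intro i
    rw [measurable_pi_iff]; intro x
    exact measurable_pi_apply _
  have m1 : Measurable (fun a (s : ℕ × (Fin d → ℤ)) => ω s.1 s.2 a) := by
    rw [measurable_pi_iff]; intro s
    exact he.meas _ _
  have m2 : Measurable (fun a (s : ℕ × (Fin d → ℤ)) => ω (m + s.1) (y + s.2) a) := by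
    rw [measurable_pi_iff]; intro s
    exact he.meas _ _
  have h4 : (P.map (fun a (s : ℕ × (Fin d → ℤ)) => ω s.1 s.2 a)).map
      (fun (z : ℕ × (Fin d → ℤ) → ℝ) (i : ℕ) (x : Fin d → ℤ) => z (i, x)) =
      (P.map (fun a (s : ℕ × (Fin d → ℤ)) => ω (m + s.1) (y + s.2) a)).map
      (fun (z : ℕ × (Fin d → ℤ) → ℝ) (i : ℕ) (x : Fin d → ℤ) => z (i, x)) := by rw [h3]
  rw [Measure.map_map mc m1, Measure.map_map mc m2] at h4
  exact h4.symm

lemma prob_shift (he : IsEnv P ω) (m : ℕ) (y : Fin d → ℤ) (β : ℝ) (h : Fin d → ℝ) (n : ℕ)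
    (lam L : ℝ) :
    P.real {a | lam < |Real.log (Zd β h (shift m y (fld ω a)) n) - L|} =
      P.real {a | lam < |Real.log (Zd β h (fld ω a) n) - L|} := by
  have hm : MeasurableSet {η : ℕ → (Fin d → ℤ) → ℝ | lam < |Real.log (Zd β h η n) - L|} :=
    measurableSet_lt measurable_const
      ((Real.measurable_log.comp (measurable_Zd β h n)).sub_const L).abs
  have h1 : P.real {a | lam < |Real.log (Zd β h (shift m y (fld ω a)) n) - L|} =
      (P.map (fun a => shift m y (fld ω a))).real
        {η : ℕ → (Fin d → ℤ) → ℝ | lam < |Real.log (Zd β h η n) - L|} := by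
    rw [map_measureReal_apply (f := fun a => shift m y (fld ω a))
      ((measurable_shift m y).comp (measurable_fld he)) hm]
    rfl
  have h2 : P.real {a | lam < |Real.log (Zd β h (fld ω a) n) - L|} =
      (P.map (fld ω)).real
        {η : ℕ → (Fin d → ℤ) → ℝ | lam < |Real.log (Zd β h η n) - L|} := by
    rw [map_measureReal_apply (measurable_fld he) hm]
    rfl
  rw [h1, h2, map_shift he]

lemma hexp_map (he : IsEnv P ω) (hexp : HasExp P ω) (b : ℝ) :
    Integrable (fun t => Real.exp (b * t)) (P.map (ω 1 0)) := by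
  rw [integrable_map_measure _ (he.meas 1 0).aemeasurable]
  · exact hexp b
  · exact (Real.measurable_exp.comp (measurable_id.const_mul b)).aestronglyMeasurable

lemma integrable_log_Zd [NeZero d] (he : IsEnv P ω) (hexp : HasExp P ω) (β : ℝ) (h : Fin d → ℝ)
    (n : ℕ) : Integrable (fun a => Real.log (Zd β h (fld ω a) n)) P := by
  have hp : IsProbabilityMeasure (P.map (ω 1 0)) :=
    Measure.isProbabilityMeasure_map (he.meas 1 0).aemeasurable
  have h1 := K1H53.CN.LZ_int (P := P) (ω := ω) (μ := P.map (ω 1 0)) (β := β)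
    (c := fun w : Fin n → Step d => Real.exp (dot h (pos w n))) he.meas he.indep
    (fun i x => (he.ident i x).map_eq) (hexp_map he hexp) (fun w => Real.exp_pos _) n
    (fun w i => pos w (i + 1))
  refine h1.congr (Eventually.of_forall fun a => ?_)
  exact (log_eq_LZ β h n a).symm

/-- concentration -/
theorem conc_exists [NeZero d] (he : IsEnv P ω) (hexp : HasExp P ω) (β : ℝ) :
    ∃ C : ℝ, 0 < C ∧ ∀ (h : Fin d → ℝ) (n : ℕ) (t lam : ℝ), 0 < t → t ≤ 1 / 2 →
      P.real {a | lam < |Real.log (Zd β h (fld ω a) n) - Lm P ω β h n|} ≤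
        2 * Real.exp (-(t * lam) + n * (C * t ^ 2)) := by
  have hp : IsProbabilityMeasure (P.map (ω 1 0)) :=
    Measure.isProbabilityMeasure_map (he.meas 1 0).aemeasurable
  have hC := K1H53.CN.CC_nonneg (P.map (ω 1 0)) β
  refine ⟨K1H53.CN.CC (P.map (ω 1 0)) β + 1, by linarith, fun h n t lam ht0 ht => ?_⟩
  have h1 := K1H53.CN.LZ_conc (P := P) (ω := ω) (μ := P.map (ω 1 0)) (β := β)
    (c := fun w : Fin n → Step d => Real.exp (dot h (pos w n))) he.meas he.indep
    (fun i x => (he.ident i x).map_eq) (hexp_map he hexp) (fun w => Real.exp_pos _) n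
    (fun w i => pos w (i + 1)) (lam := lam) ht0 ht
  refine le_trans ?_ (h1.trans ?_)
  · apply measureReal_mono _ (measure_ne_top _ _)
    intro a ha
    simp only [Set.mem_ofPred_eq] at ha ⊢
    unfold Lm at ha
    simp_rw [log_eq_LZ] at ha
    exact ha.le
  · apply mul_le_mul_of_nonneg_left _ (by norm_num)
    apply Real.exp_le_exp.2
    have : (n : ℝ) * (K1H53.CN.CC (P.map (ω 1 0)) β * t ^ 2) ≤
        n * ((K1H53.CN.CC (P.map (ω 1 0)) β + 1) * t ^ 2) := by
      apply mul_le_mul_of_nonneg_left _ (Nat.cast_nonneg n)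
      nlinarith [sq_nonneg t]
    linarith

end Pool.Agent.K1H38.DP
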