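import Pool.Agent.K1H38.DP.Main

/-!
The main theorem: confinement and fluctuations of the polymer for almost every drift.
-/

open MeasureTheory ProbabilityTheory TH967.DP Filter
open scoped Topology
open Classical

set_option linter.unusedSectionVars false

namespace Pool.Agent.K1H38.DP

variable {d : ℕ} {Ω : Type*} [MeasurableSpace Ω] {P : Measure Ω} [IsProbabilityMeasure P]
  {ω : ℕ → (Fin d → ℤ) → Ω → ℝ}

theorem final [NeZero d] (he : IsEnv P ω) (hexp : HasExp P ω) (β : ℝ) :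
    ∀ᵐ h : Fin d → ℝ, ∃ v : Fin d → ℝ,
      (∀ a : ℝ, (1 + tailExp P ω β h) / 2 < a → ∃ κ : ℝ, 0 < κ ∧ ∀ᵐ x ∂P, ∀ᶠ n : ℕ in atTop,
        1 - Real.exp (-(n : ℝ) ^ κ) ≤
          frProb β h (fun i y => ω i y x) (tube n v ((n : ℝ) ^ a))) ∧
      wanderingExp P ω β h v ≤ (1 + tailExp P ω β h) / 2 ∧
      (d = 1 → 0 < β → (¬ ∃ c : ℝ, ∀ᵐ x ∂P, ω 1 0 x = c) →
        (∀ b ε : ℝ, b < (1 - tailExp P ω β h) / 4 → 0 < ε → ∀ᶠ n : ℕ in atTop, ∀ y : ℝ,
          P.real {x | |Real.log (Zn β h (fun i z => ω i z x) n) - y| ≤ (n : ℝ) ^ b} ≤ ε) ∧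
        (1 - tailExp P ω β h) / 4 ≤ flucExp P ω β h) := by
  obtain ⟨p, hp, hconv, hcont⟩ := exists_p he hexp β
  filter_upwards [ae_slopes hconv hcont] with h hh
  obtain ⟨v, Cq, r', hr', hv⟩ := hh
  have ht0 := tailExp_nonneg (P := P) (ω := ω) β h
  have ht1 := tailExp_le_half he hexp β h
  have htube := fun (a : ℝ) (ha : (1 + tailExp P ω β h) / 2 < a) =>
    tube_of_slopes he hexp β hp hr' hv ha
  have hconf : ∀ a : ℝ, (1 + tailExp P ω β h) / 2 < a → ∃ κ : ℝ, 0 < κ ∧ ∀ᵐ x ∂P,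
      ∀ᶠ n : ℕ in atTop, 1 - Real.exp (-(n : ℝ) ^ κ) ≤
          frProb β h (fun i y => ω i y x) (tube n v ((n : ℝ) ^ a)) := by
    intro a ha
    obtain ⟨κ, hκ, B, hB, H⟩ := htube a ha
    refine ⟨κ, hκ, ?_⟩
    filter_upwards [ae_of_summable hB] with x hx
    filter_upwards [hx, H] with n hn1 hn2
    exact hn2 x hn1
  refine ⟨v, hconf, ?_, ?_⟩
  · apply le_of_forall_gt_imp_ge_of_dense
    intro a ha
    obtain ⟨κ, hκ, H⟩ := hconf a ha
    exact wandering_le (by linarith) hκ H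
  · intro hd hβ hnc
    have hanti : ∀ b ε : ℝ, b < (1 - tailExp P ω β h) / 4 → 0 < ε → ∀ᶠ n : ℕ in atTop, ∀ y : ℝ,
        P.real {x | |Real.log (Zn β h (fun i z => ω i z x) n) - y| ≤ (n : ℝ) ^ b} ≤ ε := by
      intro b ε hb hε
      set b' := max b 0 with hb'
      have hb1 : b' < (1 - tailExp P ω β h) / 4 := max_lt hb (by linarith)
      have hb0 : 0 ≤ b' := le_max_right _ _
      obtain ⟨a, ha1, ha2⟩ := exists_between
        (show (1 + tailExp P ω β h) / 2 < 1 - 2 * b' by linarith)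
      obtain ⟨κ, hκ, B, hB, H⟩ := htube a ha1
      have hfin := anti_of_tube he hexp hd hnc hβ hκ hB H (b := b') (by linarith) hb0
        (by linarith) hε
      filter_upwards [hfin, eventually_ge_atTop 1] with n hn hn1 y
      have hnR : (1 : ℝ) ≤ n := by exact_mod_cast hn1
      refine le_trans (measureReal_mono ?_ (measure_ne_top _ _)) (hn y)
      intro x hx
      exact le_trans hx (Real.rpow_le_rpow_of_exponent_le hnR (le_max_left _ _))
    refine ⟨hanti, ?_⟩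
    apply flucExp_ge he hexp
    intro b' _ hb2
    exact hanti b' (1 / 2) hb2 (by norm_num)

end Pool.Agent.K1H38.DP
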