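import Pool.Agent.TH967.DP.Paths
import Mathlib

/-!
Directed polymers in dimension `d` with a drift: definitions and deterministic inequalities.
-/

open TH967.DP
open scoped Topology

set_option linter.unusedSectionVars false

namespace Pool.Agent.K1H38.DP

variable {d : ℕ}

/-- The scalar product `h · x` of a drift and a site. -/
noncomputable def dot (h : Fin d → ℝ) (x : Fin d → ℤ) : ℝ := ∑ k, h k * (x k : ℝ)

/-- The weight `exp(h · S_n + β ∑_{i≤n} η(i, S_i))` of the walk with steps `w`. -/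
noncomputable def wgt {n : ℕ} (β : ℝ) (h : Fin d → ℝ) (η : ℕ → (Fin d → ℤ) → ℝ)
    (w : Fin n → Step d) : ℝ := Real.exp (dot h (pos w n) + β * energy η w)

/-- The sum of the weights of all walks of `n` steps. -/
noncomputable def Zd (β : ℝ) (h : Fin d → ℝ) (η : ℕ → (Fin d → ℤ) → ℝ) (n : ℕ) : ℝ :=
  ∑ w : Fin n → Step d, wgt β h η w

lemma wgt_pos {n : ℕ} (β : ℝ) (h : Fin d → ℝ) (η : ℕ → (Fin d → ℤ) → ℝ) (w : Fin n → Step d) :
    0 < wgt β h η w := Real.exp_pos _

lemma Zd_pos [NeZero d] (β : ℝ) (h : Fin d → ℝ) (η : ℕ → (Fin d → ℤ) → ℝ) (n : ℕ) :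
    0 < Zd β h η n :=
  Finset.sum_pos (fun _ _ => wgt_pos _ _ _ _) Finset.univ_nonempty

lemma dot_add_left (h g : Fin d → ℝ) (x : Fin d → ℤ) : dot (h + g) x = dot h x + dot g x := by
  unfold dot
  rw [← Finset.sum_add_distrib]
  apply Finset.sum_congr rfl
  intro k _
  simp [add_mul]

lemma dot_add_right (h : Fin d → ℝ) (x y : Fin d → ℤ) : dot h (x + y) = dot h x + dot h y := by
  unfold dot
  rw [← Finset.sum_add_distrib]
  apply Finset.sum_congr rfl
  intro k _
  push_cast [Pi.add_apply]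
  ring

lemma dot_smul (t : ℝ) (h : Fin d → ℝ) (x : Fin d → ℤ) : dot (t • h) x = t * dot h x := by
  unfold dot
  rw [Finset.mul_sum]
  apply Finset.sum_congr rfl
  intro k _
  simp [mul_assoc]

lemma dot_single (t : ℝ) (j : Fin d) (x : Fin d → ℤ) :
    dot (t • (Pi.single j (1 : ℝ) : Fin d → ℝ)) x = t * x j := by
  rw [dot_smul]
  unfold dot
  rw [Finset.sum_eq_single j]
  · simp
  · intro k _ hk
    simp [Pi.single_eq_of_ne hk]
  · simp

lemma abs_dot_le {n : ℕ} (h : Fin d → ℝ) {r : ℝ} (hr : ∀ k, |h k| ≤ r) (w : Fin n → Step d)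
    (i : ℕ) : |dot h (pos w i)| ≤ n * r := by
  unfold dot
  have h1 := l1_pos_le w i
  have h2 : ((∑ k, |pos w i k| : ℤ) : ℝ) ≤ ((n : ℤ) : ℝ) := by exact_mod_cast h1
  push_cast at h2
  by_cases hd : Nonempty (Fin d)
  · obtain ⟨k0⟩ := hd
    have hr0 : 0 ≤ r := (abs_nonneg _).trans (hr k0)
    calc |∑ k, h k * (pos w i k : ℝ)| ≤ ∑ k, |h k * (pos w i k : ℝ)| :=
          Finset.abs_sum_le_sum_abs _ _
      _ ≤ ∑ k, r * |(pos w i k : ℝ)| := by
          apply Finset.sum_le_sum
          intro k _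
          rw [abs_mul]
          exact mul_le_mul_of_nonneg_right (hr k) (abs_nonneg _)
      _ = r * ∑ k, |(pos w i k : ℝ)| := by rw [Finset.mul_sum]
      _ ≤ r * n := mul_le_mul_of_nonneg_left h2 hr0
      _ = n * r := mul_comm _ _
  · have : IsEmpty (Fin d) := not_nonempty_iff.1 hd
    have hd0 : ∀ (n : ℕ) (w : Fin n → Step d), n = 0 := by
      intro n w
      by_contra hn
      exact this.elim (w ⟨0, by omega⟩).1
    have := hd0 n w
    subst this
    simp

lemma wgt_append {m n : ℕ} (β : ℝ) (h : Fin d → ℝ) (η : ℕ → (Fin d → ℤ) → ℝ)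
    (u : Fin m → Step d) (v : Fin n → Step d) :
    wgt β h η (Fin.append u v) = wgt β h η u * wgt β h (shift m (pos u m) η) v := by
  unfold wgt
  rw [← Real.exp_add, energy_append, pos_append_right, dot_add_right]
  congr 1
  ring

lemma Zd_append (β : ℝ) (h : Fin d → ℝ) (η : ℕ → (Fin d → ℤ) → ℝ) (m n : ℕ) :
    Zd β h η (m + n) = ∑ u : Fin m → Step d, wgt β h η u * Zd β h (shift m (pos u m) η) n := by
  unfold Zd
  rw [sum_append]
  apply Finset.sum_congr rfl
  intro u _
  rw [Finset.mul_sum]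
  apply Finset.sum_congr rfl
  intro v _
  rw [wgt_append]

/-- tilting the first `m` steps -/
lemma tilt_append (β : ℝ) (h θ : Fin d → ℝ) (η : ℕ → (Fin d → ℤ) → ℝ) (m n : ℕ) :
    ∑ w : Fin (m + n) → Step d, wgt β h η w * Real.exp (dot θ (pos w m)) =
      ∑ u : Fin m → Step d, wgt β (h + θ) η u * Zd β h (shift m (pos u m) η) n := by
  rw [sum_append]
  apply Finset.sum_congr rfl
  intro u _
  unfold Zd
  rw [Finset.mul_sum]
  apply Finset.sum_congr rfl
  intro v _
  rw [wgt_append, pos_append_left u v le_rfl]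
  unfold wgt
  rw [dot_add_left, ← Real.exp_add, ← Real.exp_add, ← Real.exp_add]
  congr 1
  ring

lemma Zd_append_le {β : ℝ} {h : Fin d → ℝ} {η : ℕ → (Fin d → ℤ) → ℝ} {m n : ℕ} {b : ℝ}
    (hb : ∀ y : Fin d → ℤ, (∀ k, |y k| ≤ (m : ℤ)) → Zd β h (shift m y η) n ≤ b) :
    Zd β h η (m + n) ≤ Zd β h η m * b := by
  rw [Zd_append]
  unfold Zd at hb ⊢
  rw [Finset.sum_mul]
  apply Finset.sum_le_sum
  intro u _
  exact mul_le_mul_of_nonneg_left (hb _ (abs_pos_le u m)) (wgt_pos _ _ _ _).le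

lemma Zd_append_ge {β : ℝ} {h : Fin d → ℝ} {η : ℕ → (Fin d → ℤ) → ℝ} {m n : ℕ} {b : ℝ}
    (hb : ∀ y : Fin d → ℤ, (∀ k, |y k| ≤ (m : ℤ)) → b ≤ Zd β h (shift m y η) n) :
    Zd β h η m * b ≤ Zd β h η (m + n) := by
  rw [Zd_append]
  unfold Zd at hb ⊢
  rw [Finset.sum_mul]
  apply Finset.sum_le_sum
  intro u _
  exact mul_le_mul_of_nonneg_left (hb _ (abs_pos_le u m)) (wgt_pos _ _ _ _).le

lemma tilt_le {β : ℝ} {h θ : Fin d → ℝ} {η : ℕ → (Fin d → ℤ) → ℝ} {m n : ℕ} {b : ℝ}
    (hb : ∀ y : Fin d → ℤ, (∀ k, |y k| ≤ (m : ℤ)) → Zd β h (shift m y η) n ≤ b) :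
    ∑ w : Fin (m + n) → Step d, wgt β h η w * Real.exp (dot θ (pos w m)) ≤
      Zd β (h + θ) η m * b := by
  rw [tilt_append]
  unfold Zd at hb ⊢
  rw [Finset.sum_mul]
  apply Finset.sum_le_sum
  intro u _
  exact mul_le_mul_of_nonneg_left (hb _ (abs_pos_le u m)) (wgt_pos _ _ _ _).le

lemma Zd_zero (β : ℝ) (h : Fin d → ℝ) (η : ℕ → (Fin d → ℤ) → ℝ) : Zd β h η 0 = 1 := by
  unfold Zd wgt
  rw [Fintype.sum_unique]
  have : pos (default : Fin 0 → Step d) 0 = 0 := by unfold pos; simp
  rw [this]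
  unfold dot energy
  simp

/-- dependence on the drift -/
lemma log_Zd_lip [NeZero d] (β : ℝ) {h g : Fin d → ℝ} {r : ℝ} (hr : ∀ k, |h k - g k| ≤ r)
    (η : ℕ → (Fin d → ℤ) → ℝ) (n : ℕ) :
    |Real.log (Zd β h η n) - Real.log (Zd β g η n)| ≤ n * r := by
  have key : ∀ h g : Fin d → ℝ, (∀ k, |h k - g k| ≤ r) →
      Real.log (Zd β h η n) ≤ Real.log (Zd β g η n) + n * r := by
    intro h g hr
    have h1 : Zd β h η n ≤ Zd β g η n * Real.exp (n * r) := by
      unfold Zd
      rw [Finset.sum_mul]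
      apply Finset.sum_le_sum
      intro w _
      unfold wgt
      rw [← Real.exp_add, Real.exp_le_exp]
      have h2 := (abs_le.1 (abs_dot_le (h - g) (r := r) hr w n)).2
      have h3 : dot h (pos w n) = dot g (pos w n) + dot (h - g) (pos w n) := by
        rw [← dot_add_left]; congr 1; abel
      linarith
    have h4 := Real.log_le_log (Zd_pos β h η n) h1
    rwa [Real.log_mul (Zd_pos β g η n).ne' (Real.exp_pos _).ne', Real.log_exp] at h4
  have a1 := key h g hr
  have a2 := key g h (fun k => by rw [abs_sub_comm]; exact hr k)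
  rw [abs_le]
  constructor <;> linarith

/-- the logarithm of the partition function is a convex function of the drift -/
lemma log_Zd_convex [NeZero d] (β : ℝ) (η : ℕ → (Fin d → ℤ) → ℝ) (n : ℕ) (h g : Fin d → ℝ)
    {a b : ℝ} (ha : 0 ≤ a) (hb : 0 ≤ b) (hab : a + b = 1) :
    Real.log (Zd β (a • h + b • g) η n) ≤ a * Real.log (Zd β h η n) + b * Real.log (Zd β g η n) := by
  set A := Real.log (Zd β h η n) with hA
  set B := Real.log (Zd β g η n) with hB
  have eA : Real.exp A = Zd β h η n := Real.exp_log (Zd_pos β h η n)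
  have eB : Real.exp B = Zd β g η n := Real.exp_log (Zd_pos β g η n)
  have h1 : Zd β (a • h + b • g) η n ≤ Real.exp (a * A + b * B) := by
    have h2 : ∀ w : Fin n → Step d, wgt β (a • h + b • g) η w ≤ Real.exp (a * A + b * B) *
        (a * (wgt β h η w / Zd β h η n) + b * (wgt β g η w / Zd β g η n)) := by
      intro w
      have h3 := convexOn_exp.2 (Set.mem_univ (dot h (pos w n) + β * energy η w - A))
        (Set.mem_univ (dot g (pos w n) + β * energy η w - B)) ha hb hab
      simp only [smul_eq_mul] at h3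
      rw [Real.exp_sub, Real.exp_sub, eA, eB] at h3
      have h4 : wgt β (a • h + b • g) η w = Real.exp (a * A + b * B) *
          Real.exp (a * (dot h (pos w n) + β * energy η w - A) +
            b * (dot g (pos w n) + β * energy η w - B)) := by
        unfold wgt
        rw [← Real.exp_add, dot_add_left, dot_smul, dot_smul]
        congr 1
        linear_combination (-(β * energy η w)) * hab
      rw [h4]
      apply mul_le_mul_of_nonneg_left _ (Real.exp_pos _).le
      exact h3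
    calc Zd β (a • h + b • g) η n ≤ ∑ w : Fin n → Step d, Real.exp (a * A + b * B) *
        (a * (wgt β h η w / Zd β h η n) + b * (wgt β g η w / Zd β g η n)) :=
          Finset.sum_le_sum fun w _ => h2 w
      _ = Real.exp (a * A + b * B) * (a * ((∑ w, wgt β h η w) / Zd β h η n) +
          b * ((∑ w, wgt β g η w) / Zd β g η n)) := by
          rw [← Finset.mul_sum, Finset.sum_add_distrib, ← Finset.mul_sum, ← Finset.mul_sum,
            Finset.sum_div, Finset.sum_div]
      _ = Real.exp (a * A + b * B) := by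
          have e1 : (∑ w, wgt β h η w) / Zd β h η n = 1 := div_self (Zd_pos β h η n).ne'
          have e2 : (∑ w, wgt β g η w) / Zd β g η n = 1 := div_self (Zd_pos β g η n).ne'
          rw [e1, e2, mul_one, mul_one, hab, mul_one]
  have h5 := Real.log_le_log (Zd_pos β _ η n) h1
  rwa [Real.log_exp] at h5

end Pool.Agent.K1H38.DP
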