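import Pool.Agent.K1H38.DP.Seq

/-!
A single approximately additive sequence is close to a linear one.
-/

open Filter
open scoped Topology

namespace Pool.Agent.K1H38.DP

theorem seq_add1 {c K : ℝ} (hc : 0 < c) (hc1 : c < 1) (hK : 0 ≤ K) {N₀ : ℕ} {D : ℕ → ℝ} {δ : ℝ}
    (hadd : ∀ m n, N₀ ≤ m + n → |D (m + n) - D m - D n| ≤ K * ((m + n : ℕ) : ℝ) ^ c)
    (hD0 : D 0 = 0) (hδ : Tendsto (fun k : ℕ => D (2 ^ k) / 2 ^ k) atTop (𝓝 δ)) :
    ∃ A : ℝ, 0 ≤ A ∧ ∀ m : ℕ, |D m - m * δ| ≤ A * (m : ℝ) ^ c := by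
  set q : ℝ := (2 : ℝ) ^ (c - 1) with hq
  have hq0 : 0 < q := by rw [hq]; positivity
  have hq1 : q < 1 := by
    rw [hq]
    exact Real.rpow_lt_one_of_one_lt_of_neg (by norm_num) (by linarith)
  have h1q : 0 < 1 - q := by linarith
  set r : ℝ := (2 : ℝ) ^ (-c) with hr
  have hr0 : 0 < r := by rw [hr]; positivity
  have hr1 : r < 1 := by
    rw [hr]
    exact Real.rpow_lt_one_of_one_lt_of_neg (by norm_num) (by linarith)
  have h1r : 0 < 1 - r := by linarith
  set A1 : ℝ := K * q / (1 - q) with hA1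
  have hA10 : 0 ≤ A1 := by positivity
  set M : ℝ := ∑ m ∈ Finset.range (2 ^ (N₀ + 1)), |D m - m * δ| with hM
  have hM0 : 0 ≤ M := Finset.sum_nonneg fun _ _ => abs_nonneg _
  set A : ℝ := max M ((A1 + K) / (1 - r)) with hA
  have hA0 : 0 ≤ A := le_max_of_le_left hM0
  refine ⟨A, hA0, ?_⟩
  have hdy : ∀ k, N₀ ≤ k → |D (2 ^ k) - 2 ^ k * δ| ≤ A1 * ((2 ^ k : ℕ) : ℝ) ^ c := by
    intro k hk
    refine dyadic (k₀ := N₀) hc1 hK (fun j hj => ?_) hδ hk
    have e : 2 ^ (j + 1) = 2 ^ j + 2 ^ j := by ring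
    have h1 := hadd (2 ^ j) (2 ^ j) (by
      have : j < 2 ^ j := Nat.lt_two_pow_self
      omega)
    rw [← e] at h1
    exact h1
  intro m
  induction m using Nat.strong_induction_on with
  | _ m ih =>
    rcases Nat.eq_zero_or_pos m with h0 | hmpos
    · subst h0
      simp [hD0, Real.zero_rpow hc.ne']
    have hm1 : (1 : ℝ) ≤ m := by exact_mod_cast hmpos
    have hmc : (1 : ℝ) ≤ (m : ℝ) ^ c := Real.one_le_rpow hm1 hc.le
    rcases Nat.lt_or_ge m (2 ^ (N₀ + 1)) with hlt | hge
    · have h1 : |D m - m * δ| ≤ M := Finset.single_le_sum (f := fun m : ℕ => |D m - m * δ|)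
        (fun _ _ => abs_nonneg _) (Finset.mem_range.2 hlt)
      have h3 : M ≤ A := le_max_left _ _
      nlinarith
    · obtain ⟨k, hkdef⟩ : ∃ k, k = Nat.log 2 m := ⟨_, rfl⟩
      have hk1 : 2 ^ k ≤ m := by rw [hkdef]; exact Nat.pow_log_le_self 2 (by omega)
      have hk2 : m < 2 ^ (k + 1) := by rw [hkdef]; exact Nat.lt_pow_succ_log_self (by norm_num) m
      have hkN : N₀ ≤ k := by
        rw [hkdef]
        have := Nat.log_mono_right (b := 2) hge
        rw [Nat.log_pow (by norm_num)] at this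
        omega
      obtain ⟨m', hm'⟩ := Nat.exists_eq_add_of_le hk1
      have hm'lt : m' < m := by
        have : 0 < 2 ^ k := by positivity
        omega
      have hm'2 : 2 * m' ≤ m := by
        rw [pow_succ] at hk2
        omega
      have h1 := ih m' hm'lt
      have h2 := hdy k hkN
      have h3 := hadd (2 ^ k) m' (by
        have : k < 2 ^ k := Nat.lt_two_pow_self
        omega)
      rw [← hm'] at h3
      have h2m : A1 * ((2 ^ k : ℕ) : ℝ) ^ c ≤ A1 * (m : ℝ) ^ c := by
        apply mul_le_mul_of_nonneg_left _ hA10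
        exact Real.rpow_le_rpow (by positivity) (by exact_mod_cast hk1) hc.le
      have h1m : A * (m' : ℝ) ^ c ≤ A * (r * (m : ℝ) ^ c) := by
        apply mul_le_mul_of_nonneg_left _ hA0
        have e : r * (m : ℝ) ^ c = ((m : ℝ) / 2) ^ c := by
          rw [hr, Real.div_rpow (by positivity) (by norm_num), Real.rpow_neg (by norm_num)]
          field_simp
        rw [e]
        apply Real.rpow_le_rpow (by positivity) _ hc.le
        rw [le_div_iff₀ (by norm_num)]
        have : ((m' * 2 : ℕ) : ℝ) ≤ m := by exact_mod_cast (by omega : m' * 2 ≤ m)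
        push_cast at this
        exact this
      have e : D m - m * δ = (D m - D (2 ^ k) - D m') + (D (2 ^ k) - 2 ^ k * δ) + (D m' - m' * δ) := by
        have : (m : ℝ) = 2 ^ k + m' := by
          conv_lhs => rw [hm']
          push_cast; ring
        rw [this]; ring
      rw [e]
      have hA2 : (A1 + K) / (1 - r) ≤ A := le_max_right _ _
      rw [div_le_iff₀ h1r] at hA2
      calc _ ≤ |D m - D (2 ^ k) - D m'| + |D (2 ^ k) - 2 ^ k * δ| + |D m' - m' * δ| :=
            (abs_add_le _ _).trans (by gcongr; exact abs_add_le _ _)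
        _ ≤ K * (m : ℝ) ^ c + A1 * (m : ℝ) ^ c + A * (r * (m : ℝ) ^ c) := by
            gcongr
            · exact h2.trans h2m
            · exact h1.trans h1m
        _ = (K + A1 + A * r) * (m : ℝ) ^ c := by ring
        _ ≤ A * (m : ℝ) ^ c := by
            apply mul_le_mul_of_nonneg_right _ (by positivity)
            nlinarith

end Pool.Agent.K1H38.DP
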