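import Pool.Agent.K1H38.DP.Env

/-!
Stretched exponential tails of the free energy.
-/

open MeasureTheory ProbabilityTheory TH967.DP Filter
open scoped Topology

set_option linter.unusedSectionVars false

namespace Pool.Agent.K1H38.DP

variable {d : ℕ} {Ω : Type*} [MeasurableSpace Ω] {P : Measure Ω} [IsProbabilityMeasure P]
  {ω : ℕ → (Fin d → ℤ) → Ω → ℝ}

/-- the deviation event -/
def dev (P : Measure Ω) (ω : ℕ → (Fin d → ℤ) → Ω → ℝ) (β : ℝ) (h : Fin d → ℝ) (n : ℕ)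
    (lam : ℝ) : Set Ω := {a | lam < |Real.log (Zd β h (fld ω a) n) - Lm P ω β h n|}

lemma tail_half [NeZero d] (he : IsEnv P ω) (hexp : HasExp P ω) (β : ℝ) {c : ℝ} (hc : 1 / 2 < c)
    (hc1 : c ≤ 1) : ∃ s C : ℝ, 0 < s ∧ 0 ≤ C ∧ ∀ n : ℕ, 1 ≤ n → ∀ h : Fin d → ℝ,
      P.real (dev P ω β h n ((n : ℝ) ^ c)) ≤ C * Real.exp (-(n : ℝ) ^ s) := by
  obtain ⟨C, hC, hconc⟩ := conc_exists he hexp β
  set κ : ℝ := min (1 / 2) (1 / (2 * C)) with hκ
  have hκ0 : 0 < κ := by rw [hκ]; positivity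
  have hκ1 : κ ≤ 1 / 2 := min_le_left _ _
  have hκ2 : C * κ ≤ 1 / 2 := by
    have : κ ≤ 1 / (2 * C) := min_le_right _ _
    calc C * κ ≤ C * (1 / (2 * C)) := mul_le_mul_of_nonneg_left this hC.le
      _ = 1 / 2 := by field_simp
  refine ⟨(2 * c - 1) / 2, 2 * Real.exp (1 / (2 * κ)), by linarith, by positivity, fun n hn h => ?_⟩
  have hnR : (1 : ℝ) ≤ n := by exact_mod_cast hn
  have hn0 : (0 : ℝ) < n := by linarith
  have ht0 : 0 < κ * (n : ℝ) ^ (c - 1) := by positivity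
  have ht1 : κ * (n : ℝ) ^ (c - 1) ≤ 1 / 2 := by
    have : (n : ℝ) ^ (c - 1) ≤ 1 := Real.rpow_le_one_of_one_le_of_nonpos hnR (by linarith)
    nlinarith
  refine (hconc h n _ ((n : ℝ) ^ c) ht0 ht1).trans ?_
  rw [mul_assoc 2 (Real.exp (1 / (2 * κ))), ← Real.exp_add]
  apply mul_le_mul_of_nonneg_left _ (by norm_num)
  apply Real.exp_le_exp.2
  set y : ℝ := (n : ℝ) ^ ((2 * c - 1) / 2) with hy
  have e1 : (n : ℝ) ^ (c - 1) * (n : ℝ) ^ c = y ^ 2 := by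
    rw [hy, ← Real.rpow_natCast, ← Real.rpow_mul hn0.le, ← Real.rpow_add hn0]
    congr 1; push_cast; ring
  have e2 : (n : ℝ) * ((n : ℝ) ^ (c - 1)) ^ 2 = y ^ 2 := by
    rw [← e1]
    have : (n : ℝ) ^ c = n * (n : ℝ) ^ (c - 1) := by
      rw [← Real.rpow_one_add' hn0.le (by linarith)]
      congr 1; ring
    rw [this]; ring
  have e3 : -(κ * (n : ℝ) ^ (c - 1) * (n : ℝ) ^ c) + n * (C * (κ * (n : ℝ) ^ (c - 1)) ^ 2) =
      -κ * y ^ 2 + (C * κ) * κ * y ^ 2 := by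
    rw [← e1]
    have : (n : ℝ) * (C * (κ * (n : ℝ) ^ (c - 1)) ^ 2) =
      C * κ ^ 2 * ((n : ℝ) * ((n : ℝ) ^ (c - 1)) ^ 2) := by ring
    rw [this, e2, ← e1]; ring
  rw [e3]
  have h1 : (C * κ) * κ * y ^ 2 ≤ 1 / 2 * κ * y ^ 2 := by
    have : 0 ≤ κ * y ^ 2 := by positivity
    nlinarith
  have h2 : 0 ≤ κ / 2 * (y - 1 / κ) ^ 2 := by positivity
  have h3 : κ / 2 * (y - 1 / κ) ^ 2 = κ / 2 * y ^ 2 - y + 1 / (2 * κ) := by
    field_simp; ring
  linarith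

lemma tail_unif [NeZero d] (he : IsEnv P ω) (hexp : HasExp P ω) (β : ℝ) {c s C : ℝ} (hc : 0 < c)
    (hs : 0 < s) {S : Set (Fin d → ℝ)} (H : ∀ n : ℕ, 1 ≤ n → ∀ h ∈ S,
      P.real (dev P ω β h n ((n : ℝ) ^ c)) ≤ C * Real.exp (-(n : ℝ) ^ s)) :
    ∃ s' C' : ℝ, 0 < s' ∧ 0 ≤ C' ∧ ∀ N : ℕ, 1 ≤ N → ∀ n ≤ N, ∀ h ∈ S,
      P.real (dev P ω β h n ((N : ℝ) ^ c)) ≤ C' * Real.exp (-(N : ℝ) ^ s') := by
  obtain ⟨B, hB, hconc⟩ := conc_exists he hexp β
  refine ⟨c / 2 * min s 1, max |C| (2 * Real.exp ((B / 4 + 1) ^ 2 / 2)), by positivity,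
    (abs_nonneg C).trans (le_max_left _ _), fun N hN n hn h hh => ?_⟩
  have hNR : (1 : ℝ) ≤ N := by exact_mod_cast hN
  have hN0 : (0 : ℝ) < N := by linarith
  have hnN : (n : ℝ) ≤ N := by exact_mod_cast hn
  rcases le_or_gt (n : ℝ) ((N : ℝ) ^ (c / 2)) with hle | hgt
  · have h1 := hconc h n (1 / 2) ((N : ℝ) ^ c) (by norm_num) le_rfl
    refine h1.trans ?_
    have h2 : 2 * Real.exp ((B / 4 + 1) ^ 2 / 2) * Real.exp (-(N : ℝ) ^ (c / 2 * min s 1)) ≤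
        max |C| (2 * Real.exp ((B / 4 + 1) ^ 2 / 2)) * Real.exp (-(N : ℝ) ^ (c / 2 * min s 1)) :=
      mul_le_mul_of_nonneg_right (le_max_right _ _) (Real.exp_pos _).le
    refine le_trans ?_ h2
    rw [mul_assoc, ← Real.exp_add]
    apply mul_le_mul_of_nonneg_left _ (by norm_num)
    apply Real.exp_le_exp.2
    have h3 : (N : ℝ) ^ (c / 2 * min s 1) ≤ (N : ℝ) ^ (c / 2) := by
      apply Real.rpow_le_rpow_of_exponent_le hNR
      have := min_le_right s 1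
      nlinarith
    have e1 : (N : ℝ) ^ c = ((N : ℝ) ^ (c / 2)) ^ 2 := by
      rw [← Real.rpow_natCast, ← Real.rpow_mul hN0.le]
      congr 1; push_cast; ring
    rw [e1]
    set y : ℝ := (N : ℝ) ^ (c / 2) with hy
    have h4 : (n : ℝ) * (B * (1 / 2) ^ 2) ≤ y * (B / 4) := by nlinarith
    have h5 := sq_nonneg (y - (B / 4 + 1))
    nlinarith
  · have hy1 : 1 ≤ (N : ℝ) ^ (c / 2) := Real.one_le_rpow hNR (by linarith)
    have hn1 : 1 ≤ n := by
      have : (1 : ℝ) ≤ n := by linarith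
      exact_mod_cast this
    have h1 := H n hn1 h hh
    have h2 : dev P ω β h n ((N : ℝ) ^ c) ⊆ dev P ω β h n ((n : ℝ) ^ c) := by
      intro a ha
      unfold dev at ha ⊢
      simp only [Set.mem_ofPred_eq] at ha ⊢
      exact lt_of_le_of_lt (Real.rpow_le_rpow (by positivity) hnN hc.le) ha
    refine (measureReal_mono h2 (measure_ne_top _ _)).trans (h1.trans ?_)
    have h3 : (N : ℝ) ^ (c / 2 * min s 1) ≤ (n : ℝ) ^ s := by
      calc (N : ℝ) ^ (c / 2 * min s 1) ≤ (N : ℝ) ^ (c / 2 * s) := by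
            apply Real.rpow_le_rpow_of_exponent_le hNR
            exact mul_le_mul_of_nonneg_left (min_le_left _ _) (by linarith)
        _ = ((N : ℝ) ^ (c / 2)) ^ s := by rw [Real.rpow_mul hN0.le]
        _ ≤ (n : ℝ) ^ s := Real.rpow_le_rpow (by positivity) hgt.le hs.le
    calc C * Real.exp (-(n : ℝ) ^ s) ≤ |C| * Real.exp (-(n : ℝ) ^ s) :=
          mul_le_mul_of_nonneg_right (le_abs_self _) (Real.exp_pos _).le
      _ ≤ |C| * Real.exp (-(N : ℝ) ^ (c / 2 * min s 1)) :=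
          mul_le_mul_of_nonneg_left (Real.exp_le_exp.2 (by linarith)) (abs_nonneg _)
      _ ≤ _ := mul_le_mul_of_nonneg_right (le_max_left _ _) (Real.exp_pos _).le

lemma poly_exp (p : ℕ) {s : ℝ} (hs : 0 < s) :
    Tendsto (fun N : ℕ => (2 * (N : ℝ) + 1) ^ p * Real.exp (-(N : ℝ) ^ s)) atTop (𝓝 0) := by
  obtain ⟨k, hk⟩ := exists_nat_gt (p / s)
  have h1 := (Real.tendsto_pow_mul_exp_neg_atTop_nhds_zero k).comp
    ((tendsto_rpow_atTop hs).comp tendsto_natCast_atTop_atTop)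
  have h2 := h1.const_mul ((3 : ℝ) ^ p)
  rw [mul_zero] at h2
  apply squeeze_zero' (Eventually.of_forall fun N => by positivity) _ h2
  filter_upwards [eventually_ge_atTop 1] with N hN
  have hNR : (1 : ℝ) ≤ N := by exact_mod_cast hN
  simp only [Function.comp_apply]
  rw [← mul_assoc]
  apply mul_le_mul_of_nonneg_right _ (Real.exp_pos _).le
  calc (2 * (N : ℝ) + 1) ^ p ≤ (3 * N) ^ p := pow_le_pow_left₀ (by positivity) (by linarith) p
    _ = 3 ^ p * (N : ℝ) ^ p := mul_pow _ _ _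
    _ ≤ 3 ^ p * ((N : ℝ) ^ s) ^ k := by
        apply mul_le_mul_of_nonneg_left _ (by positivity)
        rw [← Real.rpow_natCast (N : ℝ) p, ← Real.rpow_natCast _ k, ← Real.rpow_mul (by linarith)]
        apply Real.rpow_le_rpow_of_exponent_le hNR
        rw [div_lt_iff₀ hs] at hk
        linarith

lemma summable_poly_exp (p : ℕ) {s : ℝ} (hs : 0 < s) :
    Summable (fun N : ℕ => (2 * (N : ℝ) + 1) ^ p * Real.exp (-(N : ℝ) ^ s)) := by
  have h1 := poly_exp (p + 2) hs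
  have h2 : ∀ᶠ N : ℕ in atTop, (2 * (N : ℝ) + 1) ^ (p + 2) * Real.exp (-(N : ℝ) ^ s) < 1 :=
    h1.eventually_lt_const one_pos
  have h3 : Summable (fun N : ℕ => 1 / (N : ℝ) ^ 2) := Real.summable_one_div_nat_pow.2 one_lt_two
  refine Summable.of_norm_bounded_eventually_nat h3 ?_
  filter_upwards [h2, eventually_ge_atTop 1] with N hN hN1
  have hNR : (1 : ℝ) ≤ N := by exact_mod_cast hN1
  rw [Real.norm_of_nonneg (by positivity), le_div_iff₀ (by positivity)]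
  refine le_trans ?_ hN.le
  rw [pow_add]
  have h4 : (N : ℝ) ^ 2 ≤ (2 * (N : ℝ) + 1) ^ 2 := pow_le_pow_left₀ (by linarith) (by linarith) 2
  calc (2 * (N : ℝ) + 1) ^ p * Real.exp (-(N : ℝ) ^ s) * (N : ℝ) ^ 2 ≤
      (2 * (N : ℝ) + 1) ^ p * Real.exp (-(N : ℝ) ^ s) * (2 * (N : ℝ) + 1) ^ 2 :=
        mul_le_mul_of_nonneg_left h4 (by positivity)
    _ = _ := by ring

/-- the event that some free energy deviates -/
def BadEv (P : Measure Ω) (ω : ℕ → (Fin d → ℤ) → Ω → ℝ) (β c : ℝ) {ι : Type}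
    (G : ι → Fin d → ℝ) (N : ℕ) : Set Ω :=
  {a | ∃ i : ι, ∃ n ≤ N, ∃ m ≤ N, ∃ y : Fin d → ℤ, (∀ k, |y k| ≤ (N : ℤ)) ∧
    (N : ℝ) ^ c < |Real.log (Zd β (G i) (shift m y (fld ω a)) n) - Lm P ω β (G i) n|}

lemma bad_bound (he : IsEnv P ω) (β c : ℝ) {ι : Type} [Fintype ι]
    (G : ι → Fin d → ℝ) (N : ℕ) {B : ℝ} (hB0 : 0 ≤ B)
    (hB : ∀ i, ∀ n ≤ N, P.real (dev P ω β (G i) n ((N : ℝ) ^ c)) ≤ B) :
    P.real (BadEv P ω β c G N) ≤ Fintype.card ι * (2 * (N : ℝ) + 1) ^ (d + 2) * B := by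
  classical
  set F : Finset (ι × ℕ × ℕ × (Fin d → ℤ)) := Finset.univ ×ˢ (Finset.range (N + 1) ×ˢ
    (Finset.range (N + 1) ×ˢ Finset.Icc (fun _ : Fin d => -(N : ℤ)) (fun _ => (N : ℤ)))) with hF
  have hsub : BadEv P ω β c G N ⊆ ⋃ p ∈ F, {a | (N : ℝ) ^ c < |Real.log (Zd β (G p.1)
      (shift p.2.2.1 p.2.2.2 (fld ω a)) p.2.1) - Lm P ω β (G p.1) p.2.1|} := by
    rintro a ⟨i, n, hn, m, hm, y, hy, hlt⟩
    simp only [Set.mem_iUnion]
    refine ⟨(i, n, m, y), ?_, hlt⟩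
    rw [hF]
    simp only [Finset.mem_product, Finset.mem_univ, Finset.mem_range, true_and]
    exact ⟨by omega, by omega, mem_box.2 hy⟩
  have hcard : (F.card : ℝ) = Fintype.card ι * ((N + 1) * ((N + 1) * (2 * (N : ℝ) + 1) ^ d)) := by
    rw [hF, Finset.card_product, Finset.card_product, Finset.card_product, card_box,
      Finset.card_univ, Finset.card_range]
    push_cast
    ring
  calc P.real (BadEv P ω β c G N) ≤ P.real (⋃ p ∈ F, {a | (N : ℝ) ^ c < |Real.log (Zd β (G p.1)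
      (shift p.2.2.1 p.2.2.2 (fld ω a)) p.2.1) - Lm P ω β (G p.1) p.2.1|}) :=
        measureReal_mono hsub (measure_ne_top _ _)
    _ ≤ ∑ p ∈ F, P.real {a | (N : ℝ) ^ c < |Real.log (Zd β (G p.1)
      (shift p.2.2.1 p.2.2.2 (fld ω a)) p.2.1) - Lm P ω β (G p.1) p.2.1|} :=
        measureReal_biUnion_finset_le _ _
    _ ≤ ∑ p ∈ F, B := by
        apply Finset.sum_le_sum
        intro p hp
        rw [hF] at hp
        simp only [Finset.mem_product, Finset.mem_univ, Finset.mem_range, true_and] at hp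
        rw [prob_shift he]
        exact hB p.1 p.2.1 (by omega)
    _ = F.card * B := by rw [Finset.sum_const, nsmul_eq_mul]
    _ ≤ _ := by
        apply mul_le_mul_of_nonneg_right _ hB0
        rw [hcard]
        apply mul_le_mul_of_nonneg_left _ (Nat.cast_nonneg _)
        rw [pow_add]
        have hN : (0 : ℝ) ≤ N := Nat.cast_nonneg N
        have h0 : (0 : ℝ) ≤ (2 * (N : ℝ) + 1) ^ d := by positivity
        have h1 : ((N : ℝ) + 1) * (N + 1) ≤ (2 * (N : ℝ) + 1) ^ 2 := by nlinarith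
        calc ((N : ℝ) + 1) * ((N + 1) * (2 * (N : ℝ) + 1) ^ d) =
            (2 * (N : ℝ) + 1) ^ d * (((N : ℝ) + 1) * (N + 1)) := by ring
          _ ≤ _ := mul_le_mul_of_nonneg_left h1 h0

end Pool.Agent.K1H38.DP
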