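import Pool.Agent.K1H38.DP.Cher

/-!
Confinement of the polymer to tubes.
-/

open MeasureTheory ProbabilityTheory TH967.DP Filter
open scoped Topology
open Classical

set_option linter.unusedSectionVars false

namespace Pool.Agent.K1H38.DP

variable {d : ℕ} {Ω : Type*} [MeasurableSpace Ω] {P : Measure Ω} [IsProbabilityMeasure P]
  {ω : ℕ → (Fin d → ℤ) → Ω → ℝ}

/-- the drifts used at scale `N` -/
noncomputable def GN (h : Fin d → ℝ) (t : ℝ) : Option (Fin d × Bool) → Fin d → ℝ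
  | none => h
  | some q => h + (sg q.2 * t) • (Pi.single q.1 (1 : ℝ) : Fin d → ℝ)

lemma sg_sq (b : Bool) : sg b * sg b = 1 := by
  unfold sg; split_ifs <;> norm_num

lemma abs_sg (b : Bool) : |sg b| = 1 := by
  unfold sg; split_ifs <;> norm_num

lemma GN_near (h : Fin d → ℝ) {t r : ℝ} (ht0 : 0 ≤ t) (ht : t ≤ r) (o : Option (Fin d × Bool))
    (k : Fin d) : |GN h t o k - h k| ≤ r := by
  cases o with
  | none => simp only [GN, sub_self, abs_zero]; linarith
  | some q =>
    simp only [GN, Pi.add_apply, add_sub_cancel_left, Pi.smul_apply, smul_eq_mul]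
    rw [abs_mul, abs_mul, abs_sg, one_mul, abs_of_nonneg ht0]
    have : |(Pi.single q.1 (1 : ℝ) : Fin d → ℝ) k| ≤ 1 := by
      by_cases hk : k = q.1
      · subst hk; simp
      · rw [Pi.single_eq_of_ne hk]; simp
    nlinarith [abs_nonneg ((Pi.single q.1 (1 : ℝ) : Fin d → ℝ) k)]

/-- elementary asymptotics -/
lemma asym {c e b K : ℝ} (hc : 0 < c) (he : c < e) (hb : 0 < b) (D : ℝ) :
    ∀ᶠ N : ℕ in atTop, D * (2 * (N : ℝ) + 1) * Real.exp (-(b * (N : ℝ) ^ e) + K * (N : ℝ) ^ c) ≤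
      Real.exp (-(N : ℝ) ^ c) := by
  have h1 := (poly_exp 1 hc).const_mul |D|
  rw [mul_zero] at h1
  have h2 := h1.eventually_lt_const one_pos
  have h3 : Tendsto (fun N : ℕ => (N : ℝ) ^ (e - c)) atTop atTop :=
    (tendsto_rpow_atTop (by linarith)).comp tendsto_natCast_atTop_atTop
  have h4 := h3.eventually_ge_atTop ((K + 2) / b)
  filter_upwards [h2, h4, eventually_ge_atTop 1] with N hN1 hN2 hN3
  have hNR : (1 : ℝ) ≤ N := by exact_mod_cast hN3
  rw [pow_one] at hN1
  have e1 : (N : ℝ) ^ e = (N : ℝ) ^ (e - c) * (N : ℝ) ^ c := by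
    rw [← Real.rpow_add (by linarith)]; congr 1; ring
  have hNc : 0 < (N : ℝ) ^ c := by positivity
  have h5 : (K + 2) * (N : ℝ) ^ c ≤ b * (N : ℝ) ^ e := by
    rw [e1]
    rw [div_le_iff₀ hb] at hN2
    nlinarith
  have hexp : Real.exp (-(b * (N : ℝ) ^ e) + K * (N : ℝ) ^ c) ≤
      Real.exp (-(N : ℝ) ^ c) * Real.exp (-(N : ℝ) ^ c) := by
    rw [← Real.exp_add]
    apply Real.exp_le_exp.2
    linarith
  calc D * (2 * (N : ℝ) + 1) * Real.exp (-(b * (N : ℝ) ^ e) + K * (N : ℝ) ^ c) ≤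
      |D| * (2 * (N : ℝ) + 1) * Real.exp (-(b * (N : ℝ) ^ e) + K * (N : ℝ) ^ c) := by
        apply mul_le_mul_of_nonneg_right _ (Real.exp_pos _).le
        exact mul_le_mul_of_nonneg_right (le_abs_self _) (by positivity)
    _ ≤ |D| * (2 * (N : ℝ) + 1) * (Real.exp (-(N : ℝ) ^ c) * Real.exp (-(N : ℝ) ^ c)) :=
        mul_le_mul_of_nonneg_left hexp (by positivity)
    _ = (|D| * ((2 * (N : ℝ) + 1) * Real.exp (-(N : ℝ) ^ c))) * Real.exp (-(N : ℝ) ^ c) := by ring
    _ ≤ 1 * Real.exp (-(N : ℝ) ^ c) := mul_le_mul_of_nonneg_right hN1.le (Real.exp_pos _).le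
    _ = _ := one_mul _

/-- **confinement** -/
theorem tube_good [NeZero d] (he : IsEnv P ω) (hexp : HasExp P ω) (β : ℝ) {h : Fin d → ℝ}
    {c s C r : ℝ} (hc : 0 < c) (hc1 : c < 1) (hs : 0 < s) (hr : 0 < r)
    (H : ∀ n : ℕ, 1 ≤ n → ∀ g : Fin d → ℝ, (∀ k, |g k - h k| ≤ r) →
      P.real (dev P ω β g n ((n : ℝ) ^ c)) ≤ C * Real.exp (-(n : ℝ) ^ s))
    {p : (Fin d → ℝ) → ℝ}
    (hp : ∀ h, Tendsto (fun k : ℕ => Lm P ω β h (2 ^ k) / 2 ^ k) atTop (𝓝 (p h)))
    {v : Fin d → ℝ} {Cq r' : ℝ} (hr' : 0 < r')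
    (hv : ∀ j, ∀ t : ℝ, |t| ≤ r' →
      p (h + t • (Pi.single j (1 : ℝ) : Fin d → ℝ)) ≤ p h + t * v j + Cq * t ^ 2)
    {a : ℝ} (ha : 1 + c < 2 * a) (ha1 : a < 1) :
    ∃ B : ℕ → Set Ω, Summable (fun N => P.real (B N)) ∧
      ∀ᶠ N : ℕ in atTop, ∀ x ∉ B N,
        1 - Real.exp (-(N : ℝ) ^ c) ≤ frProb β h (fld ω x) (tube N v ((N : ℝ) ^ a)) := by
  set S : Set (Fin d → ℝ) := {g | ∀ k, |g k - h k| ≤ r} with hS
  have HS : ∀ n : ℕ, 1 ≤ n → ∀ g ∈ S,
      P.real (dev P ω β g n ((n : ℝ) ^ c)) ≤ C * Real.exp (-(n : ℝ) ^ s) := fun n hn g hg =>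
    H n hn g hg
  obtain ⟨s', C', hs', hC', hu⟩ := tail_unif he hexp β hc hs HS
  obtain ⟨A, hA, hincr⟩ := incr he hexp β hc hc1 hs HS hp
  have hd : (0 : ℝ) < d := by exact_mod_cast Nat.pos_of_ne_zero (NeZero.ne d)
  set D := Real.sqrt d with hD
  have hD0 : 0 < D := Real.sqrt_pos.2 hd
  set C1 := max Cq 1 with hC1
  have hC10 : 0 < C1 := lt_of_lt_of_le one_pos (le_max_right _ _)
  set K := 1 / (2 * C1 * D) with hK
  have hK0 : 0 < K := by rw [hK]; positivity
  set r0 := min r (min r' 1) with hr0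
  have hr00 : 0 < r0 := by rw [hr0]; positivity
  have r0r : r0 ≤ r := min_le_left _ _
  have r0r' : r0 ≤ r' := (min_le_right _ _).trans (min_le_left _ _)
  have r01 : r0 ≤ 1 := (min_le_right _ _).trans (min_le_right _ _)
  set t : ℕ → ℝ := fun N => min r0 (K * (N : ℝ) ^ (a - 1)) with ht
  have ht0 : ∀ N, 0 ≤ t N := fun N => le_min hr00.le (by positivity)
  have htr : ∀ N, t N ≤ r0 := fun N => min_le_left _ _
  refine ⟨fun N => BadEv P ω β c (GN h (t N)) N, ?_, ?_⟩
  · have hsum := ((summable_poly_exp (d + 2) hs').mul_left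
      (Fintype.card (Option (Fin d × Bool)) * C'))
    refine Summable.of_norm_bounded_eventually_nat hsum ?_
    filter_upwards [eventually_ge_atTop 1] with N hN
    rw [Real.norm_of_nonneg measureReal_nonneg]
    have hb := bad_bound (P := P) he β c (GN h (t N)) N
      (B := C' * Real.exp (-(N : ℝ) ^ s')) (by positivity)
      (fun o k hk => hu N hN k hk _ (fun j => GN_near h (ht0 N) ((htr N).trans r0r) o j))
    refine hb.trans (le_of_eq ?_)
    ring
  · have e1 : Tendsto (fun N : ℕ => K * (N : ℝ) ^ (a - 1)) atTop (𝓝 0) := by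
      have h1 : Tendsto (fun N : ℕ => (N : ℝ) ^ (-(1 - a))) atTop (𝓝 0) :=
        (tendsto_rpow_neg_atTop (by linarith)).comp tendsto_natCast_atTop_atTop
      have h2 := h1.const_mul K
      rw [mul_zero] at h2
      refine h2.congr (fun N => ?_)
      rw [neg_sub]
    have e2 := e1.eventually_lt_const hr00
    have e3 := asym (c := c) (e := 2 * a - 1) (b := K / (2 * D)) (K := A + 6) hc (by linarith)
      (by positivity) (2 * d)
    filter_upwards [e2, e3, eventually_ge_atTop 1] with N hN1 hN2 hN3 x hx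
    have hNR : (1 : ℝ) ≤ N := by exact_mod_cast hN3
    have hN0 : (0 : ℝ) < N := by linarith
    have htN : t N = K * (N : ℝ) ^ (a - 1) := by
      rw [ht]
      exact min_eq_right hN1.le
    have htp : 0 < t N := by rw [htN]; positivity
    set R := (N : ℝ) ^ a with hR
    have hR0 : 0 < R := by rw [hR]; positivity
    -- one constraint
    have one : ∀ i ≤ N, ∀ q : Fin d × Bool, frProb β h (fld ω x) {w : Fin N → Step d |
        R / D ≤ sg q.2 * ((pos w i q.1 : ℝ) - i * v q.1)} ≤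
        Real.exp (-(K / (2 * D) * (N : ℝ) ^ (2 * a - 1)) + (A + 6) * (N : ℝ) ^ c) := by
      intro i hi q
      have hiN : (i : ℝ) ≤ N := by exact_mod_cast hi
      set τ := sg q.2 * t N with hτ
      have hτ2 : τ ^ 2 = (t N) ^ 2 := by
        rw [hτ, mul_pow, pow_two (sg q.2), sg_sq, one_mul]
      have hτa : |τ| = t N := by rw [hτ, abs_mul, abs_sg, one_mul, abs_of_pos htp]
      have hch := cher (P := P) (β := β) (c := c) hi hx none (some q) (j := q.1) (τ := τ) rfl
        (t N * (R / D) + τ * (i * v q.1))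
      have hsub : {w : Fin N → Step d | R / D ≤ sg q.2 * ((pos w i q.1 : ℝ) - i * v q.1)} ⊆
          {w : Fin N → Step d | t N * (R / D) + τ * (i * v q.1) ≤ τ * pos w i q.1} := by
        intro w hw
        simp only [Set.mem_ofPred_eq] at hw ⊢
        have := mul_le_mul_of_nonneg_left hw htp.le
        rw [hτ]
        linarith
      refine (frProb_mono β h (fld ω x) hsub).trans (hch.trans ?_)
      apply Real.exp_le_exp.2
      have h1 := (abs_le.1 (hincr h (fun k => by simp [hr.le]) (GN h (t N) (some q))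
        (fun k => GN_near h (ht0 N) ((htr N).trans r0r) _ k)
        (fun k => GN_near h (ht0 N) ((htr N).trans r01) _ k) i)).2
      have h2 : p (GN h (t N) (some q)) ≤ p h + τ * v q.1 + C1 * τ ^ 2 := by
        have h3 := hv q.1 τ (by rw [hτa]; exact (htr N).trans r0r')
        have h4 : Cq * τ ^ 2 ≤ C1 * τ ^ 2 :=
          mul_le_mul_of_nonneg_right (le_max_left _ _) (sq_nonneg _)
        have h5 : p (GN h (t N) (some q)) =
          p (h + τ • (Pi.single q.1 (1 : ℝ) : Fin d → ℝ)) := rfl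
        rw [h5]
        linarith
      have h3 : (i : ℝ) * (p (GN h (t N) (some q)) - p h) ≤ i * (τ * v q.1) + N * (C1 * τ ^ 2) := by
        have h4 : (i : ℝ) * (p (GN h (t N) (some q)) - p h) ≤ i * (τ * v q.1 + C1 * τ ^ 2) :=
          mul_le_mul_of_nonneg_left (by linarith) (Nat.cast_nonneg i)
        have h5 : (i : ℝ) * (C1 * τ ^ 2) ≤ N * (C1 * τ ^ 2) :=
          mul_le_mul_of_nonneg_right hiN (by positivity)
        linarith
      have h4 : A * (i : ℝ) ^ c ≤ A * (N : ℝ) ^ c :=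
        mul_le_mul_of_nonneg_left (Real.rpow_le_rpow (Nat.cast_nonneg i) hiN hc.le) hA
      have h5 : t N * (R / D) = K / D * (N : ℝ) ^ (2 * a - 1) := by
        rw [htN, hR]
        have : (N : ℝ) ^ (2 * a - 1) = (N : ℝ) ^ (a - 1) * (N : ℝ) ^ a := by
          rw [← Real.rpow_add hN0]; congr 1; ring
        rw [this]
        ring
      have h6 : (N : ℝ) * (C1 * τ ^ 2) = K / (2 * D) * (N : ℝ) ^ (2 * a - 1) := by
        rw [hτ2, htN]
        have e1 : (N : ℝ) ^ (2 * a - 1) = N * ((N : ℝ) ^ (a - 1)) ^ 2 := by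
          rw [← Real.rpow_natCast, ← Real.rpow_mul hN0.le, ← Real.rpow_one_add' hN0.le]
          · congr 1; push_cast; ring
          · push_cast; linarith
        rw [e1]
        have e2 : C1 * K = 1 / (2 * D) := by rw [hK]; field_simp
        calc (N : ℝ) * (C1 * (K * (N : ℝ) ^ (a - 1)) ^ 2) =
            (C1 * K) * K * (N * ((N : ℝ) ^ (a - 1)) ^ 2) := by ring
          _ = _ := by rw [e2]; ring
      have h7 : K / D * (N : ℝ) ^ (2 * a - 1) =
          K / (2 * D) * (N : ℝ) ^ (2 * a - 1) + K / (2 * D) * (N : ℝ) ^ (2 * a - 1) := by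
        field_simp; ring
      have h8 : τ * (i * v q.1) = i * (τ * v q.1) := by ring
      have h9 : GN h (t N) none = h := rfl
      rw [h9]
      linarith
    -- union
    set F : Finset (ℕ × (Fin d × Bool)) := Finset.range (N + 1) ×ˢ Finset.univ with hF
    have hun := frProb_union β h (fld ω x) F (fun p => {w : Fin N → Step d |
        R / D ≤ sg p.2.2 * ((pos w p.1 p.2.1 : ℝ) - p.1 * v p.2.1)}) (B := (tube N v R)ᶜ) (by
      intro w hw
      obtain ⟨i, hi, k, b, hb⟩ := exit_tube hR0.le hw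
      refine ⟨(i, (k, b)), ?_, hb⟩
      rw [hF, Finset.mem_product, Finset.mem_range]
      exact ⟨by omega, Finset.mem_univ _⟩)
    have hcard : (F.card : ℝ) = (N + 1) * (d * 2) := by
      rw [hF, Finset.card_product, Finset.card_range, Finset.card_univ, Fintype.card_prod,
        Fintype.card_fin, Fintype.card_bool]
      push_cast
      ring
    have hfin : frProb β h (fld ω x) (tube N v R)ᶜ ≤ Real.exp (-(N : ℝ) ^ c) := by
      refine hun.trans ?_
      have h1 : ∑ p ∈ F, frProb β h (fld ω x) {w : Fin N → Step d |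
        R / D ≤ sg p.2.2 * ((pos w p.1 p.2.1 : ℝ) - p.1 * v p.2.1)} ≤
        ∑ _p ∈ F, Real.exp (-(K / (2 * D) * (N : ℝ) ^ (2 * a - 1)) + (A + 6) * (N : ℝ) ^ c) := by
        apply Finset.sum_le_sum
        intro p hpF
        rw [hF, Finset.mem_product, Finset.mem_range] at hpF
        exact one p.1 (by omega) p.2
      rw [Finset.sum_const, nsmul_eq_mul, hcard] at h1
      refine h1.trans (le_trans ?_ hN2)
      apply mul_le_mul_of_nonneg_right _ (Real.exp_pos _).le
      nlinarith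
    have := frProb_compl β h (fld ω x) (tube N v R)
    linarith

end Pool.Agent.K1H38.DP
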